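import Pool.Agent.X148.FM.Cub2
import Pool.Agent.W215.FM.Gen
import Pool.Agent.W327.FM.TameAbs
import Pool.Agent.W258.FM.TameFin
import Pool.Agent.W571.FM.Frob

/-!
# Cubic extensions with small class groups have no uniform quotients

Let `p ≠ 3` be a prime, let `K/L` be a cyclic cubic extension of number fields, and let `S` be a set of primes (for
the unramified Fontaine-Mazur conjecture the empty set).  Suppose that `L` has no cyclic extension of degree `p`
unramified outside `S`, that the maximal elementary abelian `p`-extension of `K` unramified outside `S` has degree at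
most `p ^ 5`, and that `p ^ e`, `e ≥ 1`, kills the Galois groups of the finite abelian `p`-extensions of `K`
unramified outside `S`.  (If `S` is empty and `p` is odd this means that `p` does not divide the class number of
`L`, that the class group of `K` has `p`-rank at most five, and that `p ^ e` kills its `p`-part.)

Let `K'` be any subfield of `K`, and let `U` be a group with a filtration `U = U_m ⊇ U_(m+1) ⊇ ...`, `m = e r`,
`r ≥ 1`, by subgroups with trivial intersection such that `[U_i, U_j] ⊆ U_(i+j)` and the `p`-th power map is an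
injective homomorphism from `U_i / U_(i+1)` to `U_(i+r) / U_(i+r+1)`.  (For instance, a uniform pro-`p` group `U`
with `[U, U] ⊆ U^(p ^ e)`, or the group of the matrices over `ℤ_p` which are congruent to the identity modulo
`p ^ e > 2`.)  Then every continuous homomorphism from the absolute Galois group of `K'` to `U` which is unramified
outside `S` is trivial.

This applies to all cyclic cubic fields `K = K'` of `p`-rank at most five, `L = ℚ`, and, for `p ≥ 5`, to the
non-cyclic cubic fields `K'` of `p`-rank at most two such that the class number of their quadratic resolvent `L` is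
prime to `p`.

Proof.  By the module criterion of `MP_ca71b5_nt.UniformQuotients` it suffices that a nonzero space `W` over `𝔽_p`
with an automorphism `σ`, `1 + σ + σ² = 0`, and an equivariant alternating product whose values span `W` has
dimension at least six.  Over an extension field `W` is the sum of two eigenspaces `W₁`, `W₂` of `σ`, of dimensions
`a` and `b`; the product of `W₁` and `W₂` is zero, `W₂` is spanned by the products of elements of `W₁`, and
conversely.  So `b ≤ a (a - 1) / 2` and `a ≤ b (b - 1) / 2`, hence `a, b ≥ 3`.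
-/

set_option autoImplicit false

open NumberField

namespace Pool.Agent.Results.MP_ca71b5_nt.CubicExtensions

/-- The elements of the inertia groups in the absolute Galois group of `F` at the primes outside `S`: the `τ` such
that `τ x - x ∈ P` for all algebraic integers `x`, for some maximal ideal `P` of the ring of all algebraic integers
with `P ∩ 𝓞 F` not in `S`. -/
def inertia {F : Type} [Field F] (S : Set (Ideal (𝓞 F))) : Set Gal(AlgebraicClosure F/F) :=
  {τ | ∃ P : Ideal (𝓞 (AlgebraicClosure F)), P.IsMaximal ∧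
    P.comap (algebraMap (𝓞 F) (𝓞 (AlgebraicClosure F))) ∉ S ∧ ∀ x : 𝓞 (AlgebraicClosure F), τ • x - x ∈ P}

/-- The homomorphism `f` of the absolute Galois group of `K` is unramified outside `S`. -/
def Unramified {F : Type} [Field F] (S : Set (Ideal (𝓞 F)))
    {K : IntermediateField F (AlgebraicClosure F)} {E : Type} [Group E]
    (f : K.fixingSubgroup →* E) : Prop :=
  ∀ τ : K.fixingSubgroup, (τ : Gal(AlgebraicClosure F/F)) ∈ inertia S → f τ = 1

/-- `p ^ e` kills the Galois group of every finite abelian extension of `K` of `p`-power degree which is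
unramified outside `S`. -/
def AbelianExponent {F : Type} [Field F] (S : Set (Ideal (𝓞 F)))
    (K : IntermediateField F (AlgebraicClosure F)) (p e : ℕ) : Prop :=
  ∀ (E : Type) [CommGroup E] [Finite E], IsPGroup p E → ∀ f : K.fixingSubgroup →* E,
    IsOpen (f.ker : Set K.fixingSubgroup) → Unramified S f → ∀ g, f g ^ (p ^ e) = 1

/-- The homomorphisms from the absolute Galois group of `K` to `ℤ/p`, continuous and unramified outside `S`. -/
def Characters {F : Type} [Field F] (S : Set (Ideal (𝓞 F)))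
    (K : IntermediateField F (AlgebraicClosure F)) (p : ℕ) :
    Set (K.fixingSubgroup →* Multiplicative (ZMod p)) :=
  {f | IsOpen (f.ker : Set K.fixingSubgroup) ∧ Unramified S f}

/-- `L` has no cyclic extension of degree `p` unramified outside `S`. -/
def NoCyclic {F : Type} [Field F] (S : Set (Ideal (𝓞 F)))
    (L : IntermediateField F (AlgebraicClosure F)) (p : ℕ) : Prop :=
  ∀ f ∈ Characters S L p, ∀ g, f g = 1

/-- `K/L` is a cyclic cubic extension. -/
def CyclicCubic {F : Type} [Field F] (L K : IntermediateField F (AlgebraicClosure F)) : Prop :=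
  L ≤ K ∧ Module.finrank F K = 3 * Module.finrank F L ∧ ∀ σ ∈ L.fixingSubgroup, ∀ x ∈ K, σ x ∈ K

/-- The maximal elementary abelian `p`-extension of `K` unramified outside `S` has degree at most `p ^ 5`. -/
def RankAtMostFive {F : Type} [Field F] (S : Set (Ideal (𝓞 F)))
    (K : IntermediateField F (AlgebraicClosure F)) (p : ℕ) : Prop :=
  (Characters S K p).Finite ∧ (Characters S K p).ncard < p ^ 6

/-- `Fil` is a separated filtration of the group `U = Fil m` by subgroups, from the index `m` on, such that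
commutators add the indices and the `p`-th power map is an injective homomorphism from `Fil i / Fil (i + 1)` to
`Fil (i + r) / Fil (i + r + 1)`. -/
structure Valued {U : Type} [Group U] (p r m : ℕ) (Fil : ℕ → Subgroup U) : Prop where
  top : Fil m = ⊤
  anti : ∀ i, Fil (i + 1) ≤ Fil i
  comm : ∀ i j, m ≤ i → m ≤ j → ∀ x ∈ Fil i, ∀ y ∈ Fil j, x * y * x⁻¹ * y⁻¹ ∈ Fil (i + j)
  pow : ∀ i, m ≤ i → ∀ x ∈ Fil i, x ^ p ∈ Fil (i + r)
  hom : ∀ i, m ≤ i → ∀ x ∈ Fil i, ∀ y ∈ Fil i, (x * y) ^ p * (x ^ p * y ^ p)⁻¹ ∈ Fil (i + r + 1)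
  inj : ∀ i, m ≤ i → ∀ x ∈ Fil i, x ^ p ∈ Fil (i + r + 1) → x ∈ Fil (i + 1)
  sep : ∀ x, (∀ i, x ∈ Fil i) → x = 1

/-- Every homomorphism from the absolute Galois group of `K` to a valued group `U` with `m = e r`, continuous for
the topology of the filtration and unramified outside `S`, is trivial. -/
def OnlyTrivial {F : Type} [Field F] (S : Set (Ideal (𝓞 F)))
    (K : IntermediateField F (AlgebraicClosure F)) (p e : ℕ) : Prop :=
  ∀ (U : Type) [Group U] (Fil : ℕ → Subgroup U) (r : ℕ), 1 ≤ r → Valued p r (e * r) Fil →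
    ∀ ρ : K.fixingSubgroup →* U, (∀ N, IsOpen {g | ρ g ∈ Fil N}) → Unramified S ρ → ∀ g, ρ g = 1

theorem inertia_conj {F : Type} [Field F] (S : Set (Ideal (𝓞 F)))
    (σ τ : Gal(AlgebraicClosure F/F)) (hτ : τ ∈ inertia S) : σ * τ * σ⁻¹ ∈ inertia S := by
  obtain ⟨P, hP, hPS, hPτ⟩ := hτ
  let φ : 𝓞 (AlgebraicClosure F) ≃+* 𝓞 (AlgebraicClosure F) :=
    MulSemiringAction.toRingEquiv (Gal(AlgebraicClosure F/F)) (𝓞 (AlgebraicClosure F)) σ⁻¹
  have hφ : ∀ x, φ x = σ⁻¹ • x := fun _ => rfl
  refine ⟨P.comap (φ : 𝓞 (AlgebraicClosure F) →+* 𝓞 (AlgebraicClosure F)),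
    Ideal.comap_isMaximal_of_surjective _ φ.surjective, ?_, fun x => ?_⟩
  · have h1 : (P.comap (φ : 𝓞 (AlgebraicClosure F) →+* 𝓞 (AlgebraicClosure F))).comap
        (algebraMap (𝓞 F) (𝓞 (AlgebraicClosure F))) =
        P.comap (algebraMap (𝓞 F) (𝓞 (AlgebraicClosure F))) := by
      ext x
      rw [Ideal.mem_comap, Ideal.mem_comap, Ideal.mem_comap]
      have h2 : (φ : 𝓞 (AlgebraicClosure F) →+* 𝓞 (AlgebraicClosure F))
          (algebraMap (𝓞 F) (𝓞 (AlgebraicClosure F)) x) =
          algebraMap (𝓞 F) (𝓞 (AlgebraicClosure F)) x := by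
        show σ⁻¹ • algebraMap (𝓞 F) (𝓞 (AlgebraicClosure F)) x = _
        apply RingOfIntegers.ext
        show σ⁻¹ (algebraMap F (AlgebraicClosure F) x) = algebraMap F (AlgebraicClosure F) x
        exact AlgEquiv.commutes σ⁻¹ (x : F)
      rw [h2]
    rw [h1]
    exact hPS
  · have h1 : (φ : 𝓞 (AlgebraicClosure F) →+* 𝓞 (AlgebraicClosure F)) ((σ * τ * σ⁻¹) • x - x) =
        τ • (σ⁻¹ • x) - σ⁻¹ • x := by
      show σ⁻¹ • ((σ * τ * σ⁻¹) • x - x) = τ • (σ⁻¹ • x) - σ⁻¹ • x
      rw [smul_sub, smul_smul, smul_smul]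
      congr 2
      group
    rw [Ideal.mem_comap, h1]
    exact hPτ _

theorem inertia_pow {F : Type} [Field F] (S : Set (Ideal (𝓞 F)))
    (τ : Gal(AlgebraicClosure F/F)) (hτ : τ ∈ inertia S) (n : ℕ) : τ ^ n ∈ inertia S := by
  obtain ⟨P, hP, hPS, hPτ⟩ := hτ
  refine ⟨P, hP, hPS, fun x => ?_⟩
  induction n with
  | zero => rw [pow_zero, one_smul, sub_self]; exact P.zero_mem
  | succ n ih =>
    have h1 : τ ^ (n + 1) • x - x = (τ • (τ ^ n • x) - τ ^ n • x) + (τ ^ n • x - x) := by
      rw [pow_succ', mul_smul, sub_add_sub_cancel]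
    rw [h1]
    exact P.add_mem (hPτ _) ih

/-- `K/L` is a cyclic cubic extension -/
theorem part_cubic (p : ℕ) [Fact p.Prime] (hp3 : p ≠ 3) (F : Type) [Field F] [NumberField F]
    (L K : IntermediateField F (AlgebraicClosure F)) [FiniteDimensional F K] (hLK : L ≤ K)
    (hdeg : Module.finrank F K = 3 * Module.finrank F L)
    (hnor : ∀ σ ∈ L.fixingSubgroup, ∀ x ∈ K, σ x ∈ K) (S : Set (Ideal (𝓞 F)))
    (hL : ∀ f ∈ Characters S L p, ∀ g, f g = 1) (hfin : (Characters S K p).Finite)
    (hrank : (Characters S K p).ncard < p ^ 6) (e : ℕ) (he : 1 ≤ e)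
    (hE : AbelianExponent S K p e) : OnlyTrivial S K p e := by
  classical
  have hp : p.Prime := Fact.out
  have hfdL : FiniteDimensional F L :=
    Module.Finite.of_injective (IntermediateField.inclusion hLK).toLinearMap
      (IntermediateField.inclusion hLK).injective
  have hle : K.fixingSubgroup ≤ L.fixingSubgroup := IntermediateField.fixingSubgroup_le hLK
  have hidx : K.fixingSubgroup.relIndex L.fixingSubgroup = 3 := by
    have h1 := Subgroup.relIndex_mul_index hle
    rw [← IntermediateField.finrank_eq_fixingSubgroup_index, ←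
      IntermediateField.finrank_eq_fixingSubgroup_index, hdeg] at h1
    exact Nat.eq_of_mul_eq_mul_right Module.finrank_pos h1
  set H : Subgroup L.fixingSubgroup := K.fixingSubgroup.subgroupOf L.fixingSubgroup with hH
  have hHmem : ∀ x : L.fixingSubgroup, x ∈ H ↔ (x : Gal(AlgebraicClosure F/F)) ∈ K.fixingSubgroup :=
    fun x => Subgroup.mem_subgroupOf
  have hn : H.Normal := by
    constructor
    intro g hg σ
    rw [hHmem] at hg ⊢
    rw [IntermediateField.mem_fixingSubgroup_iff] at hg ⊢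
    intro x hx
    show (σ : Gal(AlgebraicClosure F/F)) ((g : Gal(AlgebraicClosure F/F))
      ((σ : Gal(AlgebraicClosure F/F))⁻¹ x)) = x
    have h1 : (σ : Gal(AlgebraicClosure F/F))⁻¹ x ∈ K :=
      hnor _ (L.fixingSubgroup.inv_mem σ.2) x hx
    rw [hg _ h1]
    exact AlgEquiv.apply_symm_apply (σ : Gal(AlgebraicClosure F/F)) x
  have hcardD : Nat.card (L.fixingSubgroup ⧸ H) = 3 := hidx
  have hfinD : Finite (L.fixingSubgroup ⧸ H) := Nat.finite_of_card_ne_zero (by rw [hcardD]; norm_num)
  have hpD : ¬ p ∣ Nat.card (L.fixingSubgroup ⧸ H) := by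
    rw [hcardD]
    intro h
    exact hp3 (Nat.prime_dvd_prime_iff_eq hp Nat.prime_three |>.1 h)
  have hKo : IsOpen (K.fixingSubgroup : Set Gal(AlgebraicClosure F/F)) :=
    IntermediateField.fixingSubgroup_isOpen K
  have hLo : IsOpen (L.fixingSubgroup : Set Gal(AlgebraicClosure F/F)) :=
    IntermediateField.fixingSubgroup_isOpen L
  have hHo : IsOpen (H : Set L.fixingSubgroup) := hKo.preimage continuous_subtype_val
  have hLc : CompactSpace L.fixingSubgroup :=
    isCompact_iff_compactSpace.1 (Subgroup.isClosed_of_isOpen _ hLo).isCompact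
  have hHc : CompactSpace H :=
    isCompact_iff_compactSpace.1 (Subgroup.isClosed_of_isOpen _ hHo).isCompact
  -- the identification
  let j : K.fixingSubgroup ≃* H := (Subgroup.subgroupOfEquivOfLe hle).symm
  have hj : ∀ g, ((j g : L.fixingSubgroup) : Gal(AlgebraicClosure F/F)) = g := fun _ => rfl
  have hjc : Continuous j := by
    refine Continuous.subtype_mk (Continuous.subtype_mk continuous_subtype_val _) _
  have hjs : ∀ g, ((j.symm g : K.fixingSubgroup) : Gal(AlgebraicClosure F/F)) =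
      ((g : L.fixingSubgroup) : Gal(AlgebraicClosure F/F)) := fun _ => rfl
  have hjsc : Continuous j.symm :=
    Continuous.subtype_mk (continuous_subtype_val.comp continuous_subtype_val) _
  let I : Set L.fixingSubgroup := {τ | (τ : Gal(AlgebraicClosure F/F)) ∈ inertia S}
  have hker : ∀ σ, σ ∈ H ↔ QuotientGroup.mk' H σ = 1 := fun σ => (QuotientGroup.eq_one_iff σ).symm
  have hIc : ∀ σ, ∀ τ ∈ I, σ * τ * σ⁻¹ ∈ I := fun σ τ hτ => inertia_conj S _ _ hτ
  have hE' : ∀ (E : Type) [CommGroup E] [Finite E], IsPGroup p E →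
      ∀ f : H →* E, IsOpen (f.ker : Set H) →
      (∀ τ : H, (τ : L.fixingSubgroup) ∈ I → f τ = 1) → ∀ g, f g ^ (p ^ e) = 1 := by
    intro E _ _ hEp f hf hfu g
    have h1 := hE E hEp (f.comp j.toMonoidHom) (hf.preimage hjc) (fun τ hτ => hfu (j τ) hτ) (j.symm g)
    rw [MonoidHom.comp_apply] at h1
    have h2 : j.toMonoidHom (j.symm g) = g := j.apply_symm_apply g
    rwa [h2] at h1
  have hr : ∀ (W : Type) [AddCommGroup W] [Module (ZMod p) W] [Finite W]
      (f : H →* Multiplicative W), Function.Surjective f → IsOpen (f.ker : Set H) →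
      (∀ τ : H, (τ : L.fixingSubgroup) ∈ I → f τ = 1) → Module.finrank (ZMod p) W ≤ 5 := by
    intro W _ _ _ f hfs hfo hfu
    let Φ : Module.Dual (ZMod p) W → (K.fixingSubgroup →* Multiplicative (ZMod p)) := fun ℓ =>
      { toFun := fun g => Multiplicative.ofAdd (ℓ (Multiplicative.toAdd (f (j g))))
        map_one' := by rw [map_one, map_one, toAdd_one, map_zero, ofAdd_zero]
        map_mul' := fun a b => by rw [map_mul, map_mul, toAdd_mul, map_add, ofAdd_add] }
    have hΦ : ∀ ℓ g, Φ ℓ g = Multiplicative.ofAdd (ℓ (Multiplicative.toAdd (f (j g)))) :=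
      fun _ _ => rfl
    have hf1 : ∀ ℓ g, f (j g) = 1 → Φ ℓ g = 1 := fun ℓ g hg => by
      rw [hΦ, hg, toAdd_one, map_zero, ofAdd_zero]
    have hΦmem : ∀ ℓ, Φ ℓ ∈ Characters S K p := fun ℓ =>
      ⟨Subgroup.isOpen_mono (H₁ := (f.comp j.toMonoidHom).ker) (fun g hg => hf1 ℓ g hg)
        (hfo.preimage hjc), fun τ hτ => hf1 ℓ τ (hfu (j τ) hτ)⟩
    have hΦinj : Function.Injective Φ := by
      intro ℓ ℓ' h
      apply LinearMap.ext
      intro w
      obtain ⟨g, hg⟩ := hfs (Multiplicative.ofAdd w)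
      have h1 := DFunLike.congr_fun h (j.symm g)
      rw [hΦ, hΦ, j.apply_symm_apply, hg] at h1
      exact h1
    have h1 : Nat.card (Module.Dual (ZMod p) W) ≤ (Characters S K p).ncard := by
      have h2 := Set.ncard_le_ncard (s := Set.range Φ) (t := Characters S K p)
        (by rintro _ ⟨ℓ, rfl⟩; exact hΦmem ℓ) hfin
      rwa [← Set.image_univ, Set.ncard_image_of_injective _ hΦinj, Set.ncard_univ] at h2
    rw [Module.natCard_eq_pow_finrank (K := ZMod p), Subspace.dual_finrank_eq, Nat.card_zmod] at h1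
    have h2 := (Nat.pow_lt_pow_iff_right hp.one_lt).1 (lt_of_le_of_lt h1 hrank)
    omega
  have hNP : Pool.Agent.X148.FM.NoPerf p (QuotientGroup.mk' H) H I :=
    Pool.Agent.X148.FM.noPerf_cubic hp3 hcardD (QuotientGroup.mk' H) H hker hHo I
      (fun τ hτ => inertia_pow S _ hτ 3)
      (fun f hf hfI g => hL f ⟨hf, fun τ hτ => hfI τ hτ⟩ g) hr
  intro U _ Fil r hr1 hFil ρ hρ hur
  have hF : Pool.Agent.X148.FM.PVal p r (e * r) Fil :=
    ⟨hFil.top, hFil.anti, hFil.comm, hFil.pow, hFil.hom, hFil.inj, hFil.sep⟩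
  have h1 := hF.triv he hr1 rfl hpD (QuotientGroup.mk' H) (QuotientGroup.mk'_surjective H) H hker I
    hIc hE' hNP (ρ.comp j.symm.toMonoidHom) (fun τ hτ => hur (j.symm τ) hτ) (fun N => by
      refine ((hρ N).preimage hjsc).mem_nhds ?_
      show ρ (j.symm 1) ∈ Fil N
      rw [map_one, map_one]
      exact Subgroup.one_mem _)
  intro g
  have h2 := h1 (j g)
  rw [MonoidHom.comp_apply] at h2
  have h3 : j.symm.toMonoidHom (j g) = g := j.symm_apply_apply g
  rwa [h3] at h2

/-- `K/F` is a cyclic cubic extension -/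
theorem part_base (p : ℕ) [Fact p.Prime] (hp3 : p ≠ 3) (F : Type) [Field F] [NumberField F]
    (K : IntermediateField F (AlgebraicClosure F)) (hdeg : Module.finrank F K = 3)
    (hnor : Normal F K) (S : Set (Ideal (𝓞 F)))
    (hL : ∀ f : Gal(AlgebraicClosure F/F) →* Multiplicative (ZMod p),
      IsOpen (f.ker : Set Gal(AlgebraicClosure F/F)) → (∀ τ ∈ inertia S, f τ = 1) → ∀ g, f g = 1)
    (hfin : (Characters S K p).Finite)
    (hrank : (Characters S K p).ncard < p ^ 6) (e : ℕ) (he : 1 ≤ e)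
    (hE : AbelianExponent S K p e) : OnlyTrivial S K p e := by
  have hfd : FiniteDimensional F K := Module.finite_of_finrank_pos (by rw [hdeg]; norm_num)
  refine part_cubic p hp3 F ⊥ K bot_le (by rw [hdeg, IntermediateField.finrank_bot]) ?_ S ?_ hfin
    hrank e he hE
  · intro σ _ x hx
    have h9 : K.map (σ : AlgebraicClosure F →ₐ[F] AlgebraicClosure F) = K :=
      IntermediateField.normal_iff_forall_map_eq'.1 hnor σ
    rw [← h9]
    exact ⟨x, hx, rfl⟩
  · rintro f ⟨hf1, hf2⟩ g
    have htop : (⊥ : IntermediateField F (AlgebraicClosure F)).fixingSubgroup = ⊤ :=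
      IntermediateField.fixingSubgroup_bot
    let i : Gal(AlgebraicClosure F/F) →* (⊥ : IntermediateField F (AlgebraicClosure F)).fixingSubgroup :=
      (MonoidHom.id _).codRestrict _ (fun x => by rw [htop]; exact Subgroup.mem_top _)
    have hic : Continuous i := Continuous.subtype_mk continuous_id _
    exact hL (f.comp i) (hf1.preimage hic) (fun τ hτ => hf2 (i τ) hτ)
      (g : Gal(AlgebraicClosure F/F))

/-- passage to subfields -/
theorem part_sub (p : ℕ) [Fact p.Prime] (F : Type) [Field F] [NumberField F]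
    (K K' : IntermediateField F (AlgebraicClosure F)) [FiniteDimensional F K] (hK : K' ≤ K)
    (S : Set (Ideal (𝓞 F))) (e : ℕ) (h : OnlyTrivial S K p e) : OnlyTrivial S K' p e := by
  have hp : p.Prime := Fact.out
  intro U _ Fil r hr1 hFil ρ hρ hur g
  have hle : K.fixingSubgroup ≤ K'.fixingSubgroup := IntermediateField.fixingSubgroup_le hK
  have hF : Pool.Agent.X148.FM.PVal p r (e * r) Fil :=
    ⟨hFil.top, hFil.anti, hFil.comm, hFil.pow, hFil.hom, hFil.inj, hFil.sep⟩
  let i : K.fixingSubgroup →* K'.fixingSubgroup := Subgroup.inclusion hle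
  have hic : Continuous i := Continuous.subtype_mk continuous_subtype_val _
  have h1 := h U Fil r hr1 hFil (ρ.comp i) (fun N => (hρ N).preimage hic) (fun τ hτ => hur (i τ) hτ)
  have h2 : K.fixingSubgroup.index ≠ 0 := by
    rw [← IntermediateField.finrank_eq_fixingSubgroup_index]
    exact Module.finrank_pos.ne'
  obtain ⟨n, hn, -, hgn⟩ := Subgroup.exists_pow_mem_of_index_ne_zero h2
    (g : Gal(AlgebraicClosure F/F))
  refine hF.torsionFree hp hr1 (n := n) hn.ne' ?_
  rw [← map_pow]
  exact h1 ⟨(g : Gal(AlgebraicClosure F/F)) ^ n, hgn⟩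

/-- the prime ideals of `ℚ` which contain a number in `S` -/
def above (S : Set ℕ) : Set (Ideal (𝓞 ℚ)) := {P | ∃ l ∈ S, (l : 𝓞 ℚ) ∈ P}

theorem mem_above (S : Set ℕ) (P : Ideal (𝓞 (AlgebraicClosure ℚ))) :
    P.comap (algebraMap (𝓞 ℚ) (𝓞 (AlgebraicClosure ℚ))) ∉ above S ↔
      ∀ l ∈ S, (l : 𝓞 (AlgebraicClosure ℚ)) ∉ P := by
  unfold above
  simp only [Set.mem_ofPred_eq, Ideal.mem_comap, map_natCast, not_exists, not_and]

open Pool.Agent.W569.FM in
theorem rational_aux (p : ℕ) (hp : p.Prime) (S : Set ℕ)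
    (hS : ∀ l ∈ S, l.Prime ∧ l ≠ p ∧ ¬ p ∣ l - 1) {E : Type} [CommGroup E] [Finite E]
    (hpg : IsPGroup p E) (f : GF ℚ →* E) (hf : IsOpen (f.ker : Set (GF ℚ)))
    (hu : ∀ P : Ideal (OO ℚ), P.IsMaximal → (∀ l ∈ S, (l : OO ℚ) ∉ P) → ∀ τ : GF ℚ,
      InInertia P τ → f τ = 1) : ∀ g, f g = 1 := by
  have hGEN : S_GEN := Pool.Agent.W215.FM.main
  have hTAME : S_TAME := Pool.Agent.W327.FM.main Pool.Agent.W258.FM.main
  have hFROB : S_FROB := Pool.Agent.W571.FM.main
  refine hGEN _ f hf fun P hP τ hτ => ?_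
  by_cases h : ∀ l ∈ S, (l : OO ℚ) ∉ P
  · exact hu P hP h τ hτ
  · push Not at h
    obtain ⟨l, hlS, hlP⟩ := h
    obtain ⟨hl, hlp, hpl⟩ := hS l hlS
    obtain ⟨⟨Q, hQ, hlQ, σ, hσ⟩, hconj⟩ := hFROB l hl
    obtain ⟨g, hg⟩ := hconj Q P hQ hP hlQ hlP
    have h1 : f τ = f (g⁻¹ * τ * g) := by
      rw [map_mul, map_mul, map_inv, mul_comm, mul_inv_cancel_left]
    rw [h1]
    have h2 := (hTAME p l hp hl hlp.symm _ hpg f hf Q hQ hlQ).1 _ (hg τ hτ) σ hσ
    rw [map_mul, map_mul, map_inv, mul_comm (f σ), mul_inv_cancel_right] at h2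
    exact eq_one_of_pow hp hl.one_le hpl (hpg _) h2

/-- the rational numbers have no cyclic extension of degree `p` which is tame and ramified only at
primes `l ≢ 1` modulo `p` -/
theorem rational (p : ℕ) [Fact p.Prime] (S : Set ℕ) (hS : ∀ l ∈ S, l.Prime ∧ l ≠ p ∧ ¬ p ∣ l - 1)
    (f : Gal(AlgebraicClosure ℚ/ℚ) →* Multiplicative (ZMod p))
    (hf : IsOpen (f.ker : Set Gal(AlgebraicClosure ℚ/ℚ)))
    (hu : ∀ τ ∈ inertia (above S), f τ = 1) : ∀ g, f g = 1 := by
  have hpg : IsPGroup p (Multiplicative (ZMod p)) := by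
    refine IsPGroup.of_card (n := 1) ?_
    rw [pow_one, Nat.card_congr Multiplicative.toAdd, Nat.card_zmod]
  exact rational_aux p Fact.out S hS hpg f hf fun P hP h τ hτ =>
    hu τ ⟨P, hP, (mem_above S P).2 h, hτ⟩

/-- **Cubic extensions with small class groups.** -/
theorem result :
    -- (1) cyclic cubic extensions `K/L` and subfields `K'` of `K`
    (∀ (p : ℕ) [Fact p.Prime], p ≠ 3 → ∀ (F : Type) [Field F] [NumberField F]
      (L K K' : IntermediateField F (AlgebraicClosure F)) [FiniteDimensional F K],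
      CyclicCubic L K → K' ≤ K → ∀ S : Set (Ideal (𝓞 F)),
      NoCyclic S L p → RankAtMostFive S K p →
      ∀ e : ℕ, 1 ≤ e → AbelianExponent S K p e → OnlyTrivial S K' p e) ∧
    -- (2) cyclic cubic fields
    (∀ (p : ℕ) [Fact p.Prime], p ≠ 3 → ∀ K : IntermediateField ℚ (AlgebraicClosure ℚ),
      Normal ℚ K → Module.finrank ℚ K = 3 →
      ∀ S : Set ℕ, (∀ l ∈ S, l.Prime ∧ l ≠ p ∧ ¬ p ∣ l - 1) → RankAtMostFive (above S) K p →
      ∀ e : ℕ, 1 ≤ e → AbelianExponent (above S) K p e → OnlyTrivial (above S) K p e) := by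
  refine ⟨fun p _ h1 F _ _ L K K' _ h2 h5 S h6 h7 e h9 h10 =>
    part_sub p F K K' h5 S e (part_cubic p h1 F L K h2.1 h2.2.1 h2.2.2 S h6 h7.1 h7.2 e h9 h10), ?_⟩
  intro p _ h1 K h2 h3 S h4 h5 e h7 h8
  exact part_base p h1 ℚ K h3 h2 (above S) (fun f hf hu => rational p S h4 f hf hu) h5.1 h5.2 e h7 h8

end Pool.Agent.Results.MP_ca71b5_nt.CubicExtensions
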