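import Pool.Agent.X148.FM.Cyc3
import Pool.Agent.X148.FM.Cub2
import Pool.Agent.W215.FM.Gen
import Pool.Agent.W327.FM.TameAbs
import Pool.Agent.W258.FM.TameFin
import Pool.Agent.W571.FM.Frob

/-!
# Cyclic extensions with class groups of small rank have no uniform quotients

Let `p` be a prime, let `K/L` be a cyclic extension of number fields of degree `m` prime to `p`, and let `S` be a set
of primes (for the unramified Fontaine-Mazur conjecture the empty set).  Suppose that `L` has no cyclic extension of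
degree `p` unramified outside `S`, that the maximal elementary abelian `p`-extension of `K` unramified outside `S`
has degree at most `p ^ 3`, or at most `p ^ 4` if `m` is divisible by neither 5 nor 6, and that `p ^ e`, `e ≥ 1`,
kills the Galois groups of the finite abelian `p`-extensions of `K` unramified outside `S`.  (If `S` is empty and `p`
is odd this means that `p` does not divide the class number of `L`, that the class group of `K` has `p`-rank at most
three, resp. four, and that `p ^ e` kills its `p`-part.)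

Let `K'` be any subfield of `K`, and let `U` be a group with a filtration `U = U_r' ⊇ U_(r'+1) ⊇ ...`, `r' = e r`,
`r ≥ 1`, by subgroups with trivial intersection such that `[U_i, U_j] ⊆ U_(i+j)` and the `p`-th power map is an
injective homomorphism from `U_i / U_(i+1)` to `U_(i+r) / U_(i+r+1)`.  (For instance, a uniform pro-`p` group `U`
with `[U, U] ⊆ U^(p ^ e)`, or the group of the matrices over `ℤ_p` which are congruent to the identity modulo
`p ^ e > 2`.)  Then every continuous homomorphism from the absolute Galois group of `K'` to `U` which is unramified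
outside `S` is trivial.

This applies to all cyclic number fields `K` of degree `m` prime to `p`, with `L = ℚ`, and to all cyclic extensions
of an imaginary quadratic field of class number prime to `p`.

Proof.  By the module criterion of `MP_ca71b5_nt.UniformQuotients` it suffices that a nonzero space `W` over `𝔽_p`
with an automorphism `σ` of order dividing `m` without fixed vectors, and an equivariant alternating product whose
values span `W`, has dimension at least four, and at least five unless 5 or 6 divides `m`.  Over an algebraic closure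
let `y_1, ..., y_n` be the eigenvalues of `σ`.  Among the products of two vectors of an eigenbasis there is another
eigenbasis, so that every `y_i` is a product `y_j y_k`, with different pairs `{j, k}` for different `i`.  Since
`y_i ≠ 1` this is impossible for `n ≤ 3`, and for `n = 4` it implies `y_i ^ 30 = 1` for all `i`, in fact that 5 or 6
divides the order of `σ`; the case of eigenvalues of order three is the one of the result `CubicExtensions`.
-/

set_option autoImplicit false

open NumberField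

namespace Pool.Agent.Results.MP_ca71b5_nt.CyclicSmallRank

/-- The elements of the inertia groups in the absolute Galois group of `F` at the primes outside `S`: the `τ` such
that `τ x - x ∈ P` for all algebraic integers `x`, for some maximal ideal `P` of the ring of all algebraic integers
with `P ∩ 𝓞 F` not in `S`. -/
def inertia {F : Type} [Field F] (S : Set (Ideal (𝓞 F))) : Set Gal(AlgebraicClosure F/F) :=
  {τ | ∃ P : Ideal (𝓞 (AlgebraicClosure F)), P.IsMaximal ∧
    P.comap (algebraMap (𝓞 F) (𝓞 (AlgebraicClosure F))) ∉ S ∧ ∀ x : 𝓞 (AlgebraicClosure F), τ • x - x ∈ P}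

/-- The homomorphism `f` of the absolute Galois group of `K` is unramified outside `S`. -/
def Unramified {F : Type} [Field F] (S : Set (Ideal (𝓞 F)))
    {K : IntermediateField F (AlgebraicClosure F)} {E : Type} [Group E]
    (f : K.fixingSubgroup →* E) : Prop :=
  ∀ τ : K.fixingSubgroup, (τ : Gal(AlgebraicClosure F/F)) ∈ inertia S → f τ = 1

/-- `p ^ e` kills the Galois group of every finite abelian extension of `K` of `p`-power degree which is
unramified outside `S`. -/
def AbelianExponent {F : Type} [Field F] (S : Set (Ideal (𝓞 F)))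
    (K : IntermediateField F (AlgebraicClosure F)) (p e : ℕ) : Prop :=
  ∀ (E : Type) [CommGroup E] [Finite E], IsPGroup p E → ∀ f : K.fixingSubgroup →* E,
    IsOpen (f.ker : Set K.fixingSubgroup) → Unramified S f → ∀ g, f g ^ (p ^ e) = 1

/-- The homomorphisms from the absolute Galois group of `K` to `ℤ/p`, continuous and unramified outside `S`. -/
def Characters {F : Type} [Field F] (S : Set (Ideal (𝓞 F)))
    (K : IntermediateField F (AlgebraicClosure F)) (p : ℕ) :
    Set (K.fixingSubgroup →* Multiplicative (ZMod p)) :=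
  {f | IsOpen (f.ker : Set K.fixingSubgroup) ∧ Unramified S f}

/-- `L` has no cyclic extension of degree `p` unramified outside `S`. -/
def NoCyclic {F : Type} [Field F] (S : Set (Ideal (𝓞 F)))
    (L : IntermediateField F (AlgebraicClosure F)) (p : ℕ) : Prop :=
  ∀ f ∈ Characters S L p, ∀ g, f g = 1

/-- `K/L` is a cyclic extension of degree `m`. -/
def CyclicExtension {F : Type} [Field F] (L K : IntermediateField F (AlgebraicClosure F)) (m : ℕ) : Prop :=
  L ≤ K ∧ Module.finrank F K = m * Module.finrank F L ∧ (∀ σ ∈ L.fixingSubgroup, ∀ x ∈ K, σ x ∈ K) ∧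
    ∃ c ∈ L.fixingSubgroup, ∀ σ ∈ L.fixingSubgroup, ∃ k : ℕ, ∀ x ∈ K, σ x = (c ^ k) x

/-- The maximal elementary abelian `p`-extension of `K` unramified outside `S` has degree at most `p ^ 3`, or at most
`p ^ 4` if `m` is divisible by neither 5 nor 6. -/
def SmallRank {F : Type} [Field F] (S : Set (Ideal (𝓞 F)))
    (K : IntermediateField F (AlgebraicClosure F)) (p m : ℕ) : Prop :=
  (Characters S K p).Finite ∧
    ((Characters S K p).ncard < p ^ 4 ∨ ((Characters S K p).ncard < p ^ 5 ∧ ¬ 5 ∣ m ∧ ¬ 6 ∣ m))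

/-- `Fil` is a separated filtration of the group `U = Fil m` by subgroups, from the index `m` on, such that
commutators add the indices and the `p`-th power map is an injective homomorphism from `Fil i / Fil (i + 1)` to
`Fil (i + r) / Fil (i + r + 1)`. -/
structure Valued {U : Type} [Group U] (p r m : ℕ) (Fil : ℕ → Subgroup U) : Prop where
  top : Fil m = ⊤
  anti : ∀ i, Fil (i + 1) ≤ Fil i
  comm : ∀ i j, m ≤ i → m ≤ j → ∀ x ∈ Fil i, ∀ y ∈ Fil j, x * y * x⁻¹ * y⁻¹ ∈ Fil (i + j)
  pow : ∀ i, m ≤ i → ∀ x ∈ Fil i, x ^ p ∈ Fil (i + r)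
  hom : ∀ i, m ≤ i → ∀ x ∈ Fil i, ∀ y ∈ Fil i, (x * y) ^ p * (x ^ p * y ^ p)⁻¹ ∈ Fil (i + r + 1)
  inj : ∀ i, m ≤ i → ∀ x ∈ Fil i, x ^ p ∈ Fil (i + r + 1) → x ∈ Fil (i + 1)
  sep : ∀ x, (∀ i, x ∈ Fil i) → x = 1

/-- Every homomorphism from the absolute Galois group of `K` to a valued group `U` with `m = e r`, continuous for
the topology of the filtration and unramified outside `S`, is trivial. -/
def OnlyTrivial {F : Type} [Field F] (S : Set (Ideal (𝓞 F)))
    (K : IntermediateField F (AlgebraicClosure F)) (p e : ℕ) : Prop :=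
  ∀ (U : Type) [Group U] (Fil : ℕ → Subgroup U) (r : ℕ), 1 ≤ r → Valued p r (e * r) Fil →
    ∀ ρ : K.fixingSubgroup →* U, (∀ N, IsOpen {g | ρ g ∈ Fil N}) → Unramified S ρ → ∀ g, ρ g = 1

theorem inertia_conj {F : Type} [Field F] (S : Set (Ideal (𝓞 F)))
    (σ τ : Gal(AlgebraicClosure F/F)) (hτ : τ ∈ inertia S) : σ * τ * σ⁻¹ ∈ inertia S := by
  obtain ⟨P, hP, hPS, hPτ⟩ := hτ
  let φ : 𝓞 (AlgebraicClosure F) ≃+* 𝓞 (AlgebraicClosure F) :=
    MulSemiringAction.toRingEquiv (Gal(AlgebraicClosure F/F)) (𝓞 (AlgebraicClosure F)) σ⁻¹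
  have hφ : ∀ x, φ x = σ⁻¹ • x := fun _ => rfl
  refine ⟨P.comap (φ : 𝓞 (AlgebraicClosure F) →+* 𝓞 (AlgebraicClosure F)),
    Ideal.comap_isMaximal_of_surjective _ φ.surjective, ?_, fun x => ?_⟩
  · have h1 : (P.comap (φ : 𝓞 (AlgebraicClosure F) →+* 𝓞 (AlgebraicClosure F))).comap
        (algebraMap (𝓞 F) (𝓞 (AlgebraicClosure F))) =
        P.comap (algebraMap (𝓞 F) (𝓞 (AlgebraicClosure F))) := by
      ext x
      rw [Ideal.mem_comap, Ideal.mem_comap, Ideal.mem_comap]
      have h2 : (φ : 𝓞 (AlgebraicClosure F) →+* 𝓞 (AlgebraicClosure F))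
          (algebraMap (𝓞 F) (𝓞 (AlgebraicClosure F)) x) =
          algebraMap (𝓞 F) (𝓞 (AlgebraicClosure F)) x := by
        show σ⁻¹ • algebraMap (𝓞 F) (𝓞 (AlgebraicClosure F)) x = _
        apply RingOfIntegers.ext
        show σ⁻¹ (algebraMap F (AlgebraicClosure F) x) = algebraMap F (AlgebraicClosure F) x
        exact AlgEquiv.commutes σ⁻¹ (x : F)
      rw [h2]
    rw [h1]
    exact hPS
  · have h1 : (φ : 𝓞 (AlgebraicClosure F) →+* 𝓞 (AlgebraicClosure F)) ((σ * τ * σ⁻¹) • x - x) =
        τ • (σ⁻¹ • x) - σ⁻¹ • x := by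
      show σ⁻¹ • ((σ * τ * σ⁻¹) • x - x) = τ • (σ⁻¹ • x) - σ⁻¹ • x
      rw [smul_sub, smul_smul, smul_smul]
      congr 2
      group
    rw [Ideal.mem_comap, h1]
    exact hPτ _

theorem inertia_pow {F : Type} [Field F] (S : Set (Ideal (𝓞 F)))
    (τ : Gal(AlgebraicClosure F/F)) (hτ : τ ∈ inertia S) (n : ℕ) : τ ^ n ∈ inertia S := by
  obtain ⟨P, hP, hPS, hPτ⟩ := hτ
  refine ⟨P, hP, hPS, fun x => ?_⟩
  induction n with
  | zero => rw [pow_zero, one_smul, sub_self]; exact P.zero_mem
  | succ n ih =>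
    have h1 : τ ^ (n + 1) • x - x = (τ • (τ ^ n • x) - τ ^ n • x) + (τ ^ n • x - x) := by
      rw [pow_succ', mul_smul, sub_add_sub_cancel]
    rw [h1]
    exact P.add_mem (hPτ _) ih

/-- `K/L` is a cyclic extension -/
theorem part_cyclic (p : ℕ) [Fact p.Prime] (F : Type) [Field F] [NumberField F]
    (L K : IntermediateField F (AlgebraicClosure F)) [FiniteDimensional F K] (m : ℕ)
    (hK : CyclicExtension L K m) (hpm : ¬ p ∣ m) (S : Set (Ideal (𝓞 F)))
    (hL : ∀ f ∈ Characters S L p, ∀ g, f g = 1) (hrank : SmallRank S K p m) (e : ℕ) (he : 1 ≤ e)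
    (hE : AbelianExponent S K p e) : OnlyTrivial S K p e := by
  classical
  have hp : p.Prime := Fact.out
  obtain ⟨hLK, hdeg, hnor, c, hcL, hc⟩ := hK
  have hfdL : FiniteDimensional F L :=
    Module.Finite.of_injective (IntermediateField.inclusion hLK).toLinearMap
      (IntermediateField.inclusion hLK).injective
  have hle : K.fixingSubgroup ≤ L.fixingSubgroup := IntermediateField.fixingSubgroup_le hLK
  have hidx : K.fixingSubgroup.relIndex L.fixingSubgroup = m := by
    have h1 := Subgroup.relIndex_mul_index hle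
    rw [← IntermediateField.finrank_eq_fixingSubgroup_index, ←
      IntermediateField.finrank_eq_fixingSubgroup_index, hdeg] at h1
    exact Nat.eq_of_mul_eq_mul_right Module.finrank_pos h1
  have hm0 : m ≠ 0 := fun h => hpm (by rw [h]; exact dvd_zero p)
  set H : Subgroup L.fixingSubgroup := K.fixingSubgroup.subgroupOf L.fixingSubgroup with hH
  have hHmem : ∀ x : L.fixingSubgroup, x ∈ H ↔ (x : Gal(AlgebraicClosure F/F)) ∈ K.fixingSubgroup :=
    fun x => Subgroup.mem_subgroupOf
  have hn : H.Normal := by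
    constructor
    intro g hg σ
    rw [hHmem] at hg ⊢
    rw [IntermediateField.mem_fixingSubgroup_iff] at hg ⊢
    intro x hx
    show (σ : Gal(AlgebraicClosure F/F)) ((g : Gal(AlgebraicClosure F/F))
      ((σ : Gal(AlgebraicClosure F/F))⁻¹ x)) = x
    have h1 : (σ : Gal(AlgebraicClosure F/F))⁻¹ x ∈ K :=
      hnor _ (L.fixingSubgroup.inv_mem σ.2) x hx
    rw [hg _ h1]
    exact AlgEquiv.apply_symm_apply (σ : Gal(AlgebraicClosure F/F)) x
  have hcardD : Nat.card (L.fixingSubgroup ⧸ H) = m := hidx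
  have hfinD : Finite (L.fixingSubgroup ⧸ H) := Nat.finite_of_card_ne_zero (by rw [hcardD]; exact hm0)
  have hfi : H.FiniteIndex := Subgroup.finiteIndex_of_finite_quotient
  have hpD : ¬ p ∣ Nat.card (L.fixingSubgroup ⧸ H) := by rwa [hcardD]
  have hKo : IsOpen (K.fixingSubgroup : Set Gal(AlgebraicClosure F/F)) :=
    IntermediateField.fixingSubgroup_isOpen K
  have hLo : IsOpen (L.fixingSubgroup : Set Gal(AlgebraicClosure F/F)) :=
    IntermediateField.fixingSubgroup_isOpen L
  have hHo : IsOpen (H : Set L.fixingSubgroup) := hKo.preimage continuous_subtype_val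
  have hLc : CompactSpace L.fixingSubgroup :=
    isCompact_iff_compactSpace.1 (Subgroup.isClosed_of_isOpen _ hLo).isCompact
  have hHc : CompactSpace H :=
    isCompact_iff_compactSpace.1 (Subgroup.isClosed_of_isOpen _ hHo).isCompact
  -- the identification
  let j : K.fixingSubgroup ≃* H := (Subgroup.subgroupOfEquivOfLe hle).symm
  have hj : ∀ g, ((j g : L.fixingSubgroup) : Gal(AlgebraicClosure F/F)) = g := fun _ => rfl
  have hjc : Continuous j := by
    refine Continuous.subtype_mk (Continuous.subtype_mk continuous_subtype_val _) _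
  have hjsc : Continuous j.symm :=
    Continuous.subtype_mk (continuous_subtype_val.comp continuous_subtype_val) _
  let I : Set L.fixingSubgroup := {τ | (τ : Gal(AlgebraicClosure F/F)) ∈ inertia S}
  have hker : ∀ σ, σ ∈ H ↔ QuotientGroup.mk' H σ = 1 := fun σ => (QuotientGroup.eq_one_iff σ).symm
  have hIc : ∀ σ, ∀ τ ∈ I, σ * τ * σ⁻¹ ∈ I := fun σ τ hτ => inertia_conj S _ _ hτ
  have hE' : ∀ (E : Type) [CommGroup E] [Finite E], IsPGroup p E →
      ∀ f : H →* E, IsOpen (f.ker : Set H) →
      (∀ τ : H, (τ : L.fixingSubgroup) ∈ I → f τ = 1) → ∀ g, f g ^ (p ^ e) = 1 := by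
    intro E _ _ hEp f hf hfu g
    have h1 := hE E hEp (f.comp j.toMonoidHom) (hf.preimage hjc) (fun τ hτ => hfu (j τ) hτ) (j.symm g)
    rw [MonoidHom.comp_apply] at h1
    have h2 : j.toMonoidHom (j.symm g) = g := j.apply_symm_apply g
    rwa [h2] at h1
  have hr : ∀ (W : Type) [AddCommGroup W] [Module (ZMod p) W] [Finite W]
      (f : H →* Multiplicative W), Function.Surjective f → IsOpen (f.ker : Set H) →
      (∀ τ : H, (τ : L.fixingSubgroup) ∈ I → f τ = 1) → Module.finrank (ZMod p) W ≤ 3 ∨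
        (Module.finrank (ZMod p) W ≤ 4 ∧ ¬ 5 ∣ Nat.card (L.fixingSubgroup ⧸ H) ∧
          ¬ 6 ∣ Nat.card (L.fixingSubgroup ⧸ H)) := by
    intro W _ _ _ f hfs hfo hfu
    rw [hcardD]
    let Φ : Module.Dual (ZMod p) W → (K.fixingSubgroup →* Multiplicative (ZMod p)) := fun ℓ =>
      { toFun := fun g => Multiplicative.ofAdd (ℓ (Multiplicative.toAdd (f (j g))))
        map_one' := by rw [map_one, map_one, toAdd_one, map_zero, ofAdd_zero]
        map_mul' := fun a b => by rw [map_mul, map_mul, toAdd_mul, map_add, ofAdd_add] }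
    have hΦ : ∀ ℓ g, Φ ℓ g = Multiplicative.ofAdd (ℓ (Multiplicative.toAdd (f (j g)))) :=
      fun _ _ => rfl
    have hf1 : ∀ ℓ g, f (j g) = 1 → Φ ℓ g = 1 := fun ℓ g hg => by
      rw [hΦ, hg, toAdd_one, map_zero, ofAdd_zero]
    have hΦmem : ∀ ℓ, Φ ℓ ∈ Characters S K p := fun ℓ =>
      ⟨Subgroup.isOpen_mono (H₁ := (f.comp j.toMonoidHom).ker) (fun g hg => hf1 ℓ g hg)
        (hfo.preimage hjc), fun τ hτ => hf1 ℓ τ (hfu (j τ) hτ)⟩
    have hΦinj : Function.Injective Φ := by
      intro ℓ ℓ' h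
      apply LinearMap.ext
      intro w
      obtain ⟨g, hg⟩ := hfs (Multiplicative.ofAdd w)
      have h1 := DFunLike.congr_fun h (j.symm g)
      rw [hΦ, hΦ, j.apply_symm_apply, hg] at h1
      exact h1
    have h1 : Nat.card (Module.Dual (ZMod p) W) ≤ (Characters S K p).ncard := by
      have h2 := Set.ncard_le_ncard (s := Set.range Φ) (t := Characters S K p)
        (by rintro _ ⟨ℓ, rfl⟩; exact hΦmem ℓ) hrank.1
      rwa [← Set.image_univ, Set.ncard_image_of_injective _ hΦinj, Set.ncard_univ] at h2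
    rw [Module.natCard_eq_pow_finrank (K := ZMod p), Subspace.dual_finrank_eq, Nat.card_zmod] at h1
    rcases hrank.2 with h3 | ⟨h3, h4⟩
    · have h2 := (Nat.pow_lt_pow_iff_right hp.one_lt).1 (lt_of_le_of_lt h1 h3)
      exact Or.inl (by omega)
    · have h2 := (Nat.pow_lt_pow_iff_right hp.one_lt).1 (lt_of_le_of_lt h1 h3)
      exact Or.inr ⟨by omega, h4⟩
  have hocc : ¬ Pool.Agent.X148.FM.Occ p H I 1 :=
    Pool.Agent.X148.FM.not_occ_one H (by rw [← hcardD] at hpm; exact hpm) hHo I
      (fun τ hτ k => inertia_pow S _ hτ k)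
      (fun f hf hfI g => hL f ⟨hf, fun τ hτ => hfI τ hτ⟩ g)
  have hNP : Pool.Agent.X148.FM.NoPerf p (QuotientGroup.mk' H) H I := by
    refine Pool.Agent.X148.FM.noPerf_cyc hpD (QuotientGroup.mk' H ⟨c, hcL⟩) (fun d => ?_)
      (QuotientGroup.mk' H) H I hocc hr
    obtain ⟨σ, rfl⟩ := QuotientGroup.mk'_surjective H d
    obtain ⟨k, hk⟩ := hc σ σ.2
    refine ⟨k, ?_⟩
    rw [← map_pow, ← inv_mul_eq_one, ← map_inv, ← map_mul]
    refine (QuotientGroup.eq_one_iff _).2 ?_
    rw [hHmem, IntermediateField.mem_fixingSubgroup_iff]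
    intro x hx
    show (σ : Gal(AlgebraicClosure F/F))⁻¹ ((c ^ k) x) = x
    rw [← hk x hx]
    exact AlgEquiv.symm_apply_apply (σ : Gal(AlgebraicClosure F/F)) x
  intro U _ Fil r hr1 hFil ρ hρ hur
  have hF : Pool.Agent.X148.FM.PVal p r (e * r) Fil :=
    ⟨hFil.top, hFil.anti, hFil.comm, hFil.pow, hFil.hom, hFil.inj, hFil.sep⟩
  have h1 := hF.triv he hr1 rfl hpD (QuotientGroup.mk' H) (QuotientGroup.mk'_surjective H) H hker I
    hIc hE' hNP (ρ.comp j.symm.toMonoidHom) (fun τ hτ => hur (j.symm τ) hτ) (fun N => by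
      refine ((hρ N).preimage hjsc).mem_nhds ?_
      show ρ (j.symm 1) ∈ Fil N
      rw [map_one, map_one]
      exact Subgroup.one_mem _)
  intro g
  have h2 := h1 (j g)
  rw [MonoidHom.comp_apply] at h2
  have h3 : j.symm.toMonoidHom (j g) = g := j.symm_apply_apply g
  rwa [h3] at h2

/-- passage to subfields -/
theorem part_sub (p : ℕ) [Fact p.Prime] (F : Type) [Field F] [NumberField F]
    (K K' : IntermediateField F (AlgebraicClosure F)) [FiniteDimensional F K] (hK : K' ≤ K)
    (S : Set (Ideal (𝓞 F))) (e : ℕ) (h : OnlyTrivial S K p e) : OnlyTrivial S K' p e := by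
  have hp : p.Prime := Fact.out
  intro U _ Fil r hr1 hFil ρ hρ hur g
  have hle : K.fixingSubgroup ≤ K'.fixingSubgroup := IntermediateField.fixingSubgroup_le hK
  have hF : Pool.Agent.X148.FM.PVal p r (e * r) Fil :=
    ⟨hFil.top, hFil.anti, hFil.comm, hFil.pow, hFil.hom, hFil.inj, hFil.sep⟩
  let i : K.fixingSubgroup →* K'.fixingSubgroup := Subgroup.inclusion hle
  have hic : Continuous i := Continuous.subtype_mk continuous_subtype_val _
  have h1 := h U Fil r hr1 hFil (ρ.comp i) (fun N => (hρ N).preimage hic) (fun τ hτ => hur (i τ) hτ)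
  have h2 : K.fixingSubgroup.index ≠ 0 := by
    rw [← IntermediateField.finrank_eq_fixingSubgroup_index]
    exact Module.finrank_pos.ne'
  obtain ⟨n, hn, -, hgn⟩ := Subgroup.exists_pow_mem_of_index_ne_zero h2
    (g : Gal(AlgebraicClosure F/F))
  refine hF.torsionFree hp hr1 (n := n) hn.ne' ?_
  rw [← map_pow]
  exact h1 ⟨(g : Gal(AlgebraicClosure F/F)) ^ n, hgn⟩

/-- the base field -/
theorem base_cyclic {p : ℕ} {F : Type} [Field F] (S : Set (Ideal (𝓞 F)))
    (h : ∀ f : Gal(AlgebraicClosure F/F) →* Multiplicative (ZMod p),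
      IsOpen (f.ker : Set Gal(AlgebraicClosure F/F)) → (∀ τ ∈ inertia S, f τ = 1) → ∀ g, f g = 1) :
    NoCyclic S ⊥ p := by
  rintro f ⟨hf1, hf2⟩ g
  have htop : (⊥ : IntermediateField F (AlgebraicClosure F)).fixingSubgroup = ⊤ :=
    IntermediateField.fixingSubgroup_bot
  let i : Gal(AlgebraicClosure F/F) →* (⊥ : IntermediateField F (AlgebraicClosure F)).fixingSubgroup :=
    (MonoidHom.id _).codRestrict _ (fun x => by rw [htop]; exact Subgroup.mem_top _)
  have hic : Continuous i := Continuous.subtype_mk continuous_id _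
  exact h (f.comp i) (hf1.preimage hic) (fun τ hτ => hf2 (i τ) hτ)
    (g : Gal(AlgebraicClosure F/F))

/-- the prime ideals of `ℚ` which contain a number in `S` -/
def above (S : Set ℕ) : Set (Ideal (𝓞 ℚ)) := {P | ∃ l ∈ S, (l : 𝓞 ℚ) ∈ P}

theorem mem_above (S : Set ℕ) (P : Ideal (𝓞 (AlgebraicClosure ℚ))) :
    P.comap (algebraMap (𝓞 ℚ) (𝓞 (AlgebraicClosure ℚ))) ∉ above S ↔
      ∀ l ∈ S, (l : 𝓞 (AlgebraicClosure ℚ)) ∉ P := by
  unfold above
  simp only [Set.mem_ofPred_eq, Ideal.mem_comap, map_natCast, not_exists, not_and]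

open Pool.Agent.W569.FM in
theorem rational_aux (p : ℕ) (hp : p.Prime) (S : Set ℕ)
    (hS : ∀ l ∈ S, l.Prime ∧ l ≠ p ∧ ¬ p ∣ l - 1) {E : Type} [CommGroup E] [Finite E]
    (hpg : IsPGroup p E) (f : GF ℚ →* E) (hf : IsOpen (f.ker : Set (GF ℚ)))
    (hu : ∀ P : Ideal (OO ℚ), P.IsMaximal → (∀ l ∈ S, (l : OO ℚ) ∉ P) → ∀ τ : GF ℚ,
      InInertia P τ → f τ = 1) : ∀ g, f g = 1 := by
  have hGEN : S_GEN := Pool.Agent.W215.FM.main
  have hTAME : S_TAME := Pool.Agent.W327.FM.main Pool.Agent.W258.FM.main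
  have hFROB : S_FROB := Pool.Agent.W571.FM.main
  refine hGEN _ f hf fun P hP τ hτ => ?_
  by_cases h : ∀ l ∈ S, (l : OO ℚ) ∉ P
  · exact hu P hP h τ hτ
  · push Not at h
    obtain ⟨l, hlS, hlP⟩ := h
    obtain ⟨hl, hlp, hpl⟩ := hS l hlS
    obtain ⟨⟨Q, hQ, hlQ, σ, hσ⟩, hconj⟩ := hFROB l hl
    obtain ⟨g, hg⟩ := hconj Q P hQ hP hlQ hlP
    have h1 : f τ = f (g⁻¹ * τ * g) := by
      rw [map_mul, map_mul, map_inv, mul_comm, mul_inv_cancel_left]
    rw [h1]
    have h2 := (hTAME p l hp hl hlp.symm _ hpg f hf Q hQ hlQ).1 _ (hg τ hτ) σ hσ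
    rw [map_mul, map_mul, map_inv, mul_comm (f σ), mul_inv_cancel_right] at h2
    exact eq_one_of_pow hp hl.one_le hpl (hpg _) h2

/-- the rational numbers have no cyclic extension of degree `p` which is tame and ramified only at
primes `l ≢ 1` modulo `p` -/
theorem rational (p : ℕ) [Fact p.Prime] (S : Set ℕ) (hS : ∀ l ∈ S, l.Prime ∧ l ≠ p ∧ ¬ p ∣ l - 1)
    (f : Gal(AlgebraicClosure ℚ/ℚ) →* Multiplicative (ZMod p))
    (hf : IsOpen (f.ker : Set Gal(AlgebraicClosure ℚ/ℚ)))
    (hu : ∀ τ ∈ inertia (above S), f τ = 1) : ∀ g, f g = 1 := by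
  have hpg : IsPGroup p (Multiplicative (ZMod p)) := by
    refine IsPGroup.of_card (n := 1) ?_
    rw [pow_one, Nat.card_congr Multiplicative.toAdd, Nat.card_zmod]
  exact rational_aux p Fact.out S hS hpg f hf fun P hP h τ hτ =>
    hu τ ⟨P, hP, (mem_above S P).2 h, hτ⟩

theorem fd_base {F : Type} [Field F] (K : IntermediateField F (AlgebraicClosure F)) {m : ℕ}
    (hm : m ≠ 0) (h : CyclicExtension ⊥ K m) : FiniteDimensional F K := by
  have h9 := h.2.1
  rw [IntermediateField.finrank_bot, mul_one] at h9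
  exact Module.finite_of_finrank_pos (by
    rw [h9]
    exact Nat.pos_of_ne_zero hm)

/-- **Cyclic extensions with class groups of small rank.** -/
theorem result :
    -- (1) cyclic extensions `K/L` and subfields `K'` of `K`
    (∀ (p : ℕ) [Fact p.Prime] (F : Type) [Field F] [NumberField F]
      (L K K' : IntermediateField F (AlgebraicClosure F)) [FiniteDimensional F K] (m : ℕ),
      CyclicExtension L K m → ¬ p ∣ m → K' ≤ K → ∀ S : Set (Ideal (𝓞 F)),
      NoCyclic S L p → SmallRank S K p m →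
      ∀ e : ℕ, 1 ≤ e → AbelianExponent S K p e → OnlyTrivial S K' p e) ∧
    -- (2) cyclic number fields
    (∀ (p : ℕ) [Fact p.Prime] (K K' : IntermediateField ℚ (AlgebraicClosure ℚ)) (m : ℕ),
      CyclicExtension ⊥ K m → ¬ p ∣ m → K' ≤ K →
      ∀ S : Set ℕ, (∀ l ∈ S, l.Prime ∧ l ≠ p ∧ ¬ p ∣ l - 1) → SmallRank (above S) K p m →
      ∀ e : ℕ, 1 ≤ e → AbelianExponent (above S) K p e → OnlyTrivial (above S) K' p e) := by
  have h1 : ∀ (p : ℕ) [Fact p.Prime] (F : Type) [Field F] [NumberField F]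
      (L K K' : IntermediateField F (AlgebraicClosure F)) [FiniteDimensional F K] (m : ℕ),
      CyclicExtension L K m → ¬ p ∣ m → K' ≤ K → ∀ S : Set (Ideal (𝓞 F)),
      NoCyclic S L p → SmallRank S K p m →
      ∀ e : ℕ, 1 ≤ e → AbelianExponent S K p e → OnlyTrivial S K' p e := by
    intro p _ F _ _ L K K' _ m h2 h3 h4 S h5 h6 e h7 h8
    exact part_sub p F K K' h4 S e (part_cyclic p F L K m h2 h3 S h5 h6 e h7 h8)
  refine ⟨h1, ?_⟩
  intro p _ K K' m h2 h3 h4 S h5 h6 e h7 h8
  have hm : m ≠ 0 := fun h => h3 (by rw [h]; exact dvd_zero p)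
  have hfd := fd_base K hm h2
  exact h1 p ℚ ⊥ K K' m h2 h3 h4 (above S)
    (base_cyclic _ fun f hf hu => rational p S h5 f hf hu) h6 e h7 h8

end Pool.Agent.Results.MP_ca71b5_nt.CyclicSmallRank
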