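import Pool.Agent.X148.FM.Char2
import Pool.Agent.W215.FM.Gen
import Pool.Agent.W327.FM.TameAbs
import Pool.Agent.W258.FM.TameFin
import Pool.Agent.W571.FM.Frob

/-!
# Product-free sets of characters, and multiquadratic fields

Let `K/F` be a finite Galois extension of number fields, let `S` be a set of primes of `F` (for the unramified
Fontaine-Mazur conjecture the empty set), and suppose that `p ^ e`, `e ≥ 1`, kills the Galois groups of the finite
abelian `p`-extensions of `K` unramified outside `S`.  We say that a character `ψ : G_F → (ℤ/p)ˣ` occurs in `K` if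
there is a nonzero homomorphism from `G_K` to `ℤ/p`, unramified outside `S`, on which `G_F` acts by `ψ`.  Suppose
that one of the following holds.

(1) The Galois group of `K/F` is abelian of exponent dividing `p - 1`, and the set of the characters which occur in
`K` is product-free: if `ψ`, `ψ'` and `ψ ψ'` occur then `ψ = ψ'`, and `ψ` occurs with multiplicity one.

(2) `p` is odd, the Galois group of `K/F` has exponent two, `F` has no cyclic extension of degree `p` unramified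
outside `S`, and of any three fields `F(√a)`, `F(√b)`, `F(√(ab))` contained in `K` at least one has no cyclic extension
of degree `p` unramified outside `S` (for empty `S`: has class number prime to `p`).

(3) `p` is odd, `F = ℚ`, `K = ℚ(√a_1, ..., √a_m)`, `S` consists of primes `l ≢ 0, 1 mod p` (or is empty), and of any
three quadratic fields `ℚ(√a)`, `ℚ(√b)`, `ℚ(√(ab))` contained in `K` at least one has no cyclic extension of degree
`p` unramified outside `S`.

Let `K'` be any subfield of `K`, and let `U` be a group with a filtration `U = U_m ⊇ U_(m+1) ⊇ ...`, `m = e r`,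
`r ≥ 1`, by subgroups with trivial intersection such that `[U_i, U_j] ⊆ U_(i+j)` and the `p`-th power map is an
injective homomorphism from `U_i / U_(i+1)` to `U_(i+r) / U_(i+r+1)`.  (For instance, a uniform pro-`p` group `U`
with `[U, U] ⊆ U^(p ^ e)`, or the group of the matrices over `ℤ_p` which are congruent to the identity modulo
`p ^ e > 2`.)  Then every continuous homomorphism from the absolute Galois group of `K'` to `U` which is unramified
outside `S` is trivial.
-/

set_option autoImplicit false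

open NumberField

namespace Pool.Agent.Results.MP_ca71b5_nt.ProductFreeCharacters

/-- The elements of the inertia groups in the absolute Galois group of `F` at the primes outside `S`: the `τ` such
that `τ x - x ∈ P` for all algebraic integers `x`, for some maximal ideal `P` of the ring of all algebraic integers
with `P ∩ 𝓞 F` not in `S`. -/
def inertia {F : Type} [Field F] (S : Set (Ideal (𝓞 F))) : Set Gal(AlgebraicClosure F/F) :=
  {τ | ∃ P : Ideal (𝓞 (AlgebraicClosure F)), P.IsMaximal ∧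
    P.comap (algebraMap (𝓞 F) (𝓞 (AlgebraicClosure F))) ∉ S ∧ ∀ x : 𝓞 (AlgebraicClosure F), τ • x - x ∈ P}

/-- The homomorphism `f` of the absolute Galois group of `K` is unramified outside `S`. -/
def Unramified {F : Type} [Field F] (S : Set (Ideal (𝓞 F)))
    {K : IntermediateField F (AlgebraicClosure F)} {E : Type} [Group E]
    (f : K.fixingSubgroup →* E) : Prop :=
  ∀ τ : K.fixingSubgroup, (τ : Gal(AlgebraicClosure F/F)) ∈ inertia S → f τ = 1

/-- `p ^ e` kills the Galois group of every finite abelian extension of `K` of `p`-power degree which is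
unramified outside `S`. -/
def AbelianExponent {F : Type} [Field F] (S : Set (Ideal (𝓞 F)))
    (K : IntermediateField F (AlgebraicClosure F)) (p e : ℕ) : Prop :=
  ∀ (E : Type) [CommGroup E] [Finite E], IsPGroup p E → ∀ f : K.fixingSubgroup →* E,
    IsOpen (f.ker : Set K.fixingSubgroup) → Unramified S f → ∀ g, f g ^ (p ^ e) = 1

/-- The homomorphisms from the absolute Galois group of `K` to `ℤ/p`, continuous and unramified outside `S`. -/
def Characters {F : Type} [Field F] (S : Set (Ideal (𝓞 F)))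
    (K : IntermediateField F (AlgebraicClosure F)) (p : ℕ) :
    Set (K.fixingSubgroup →* Multiplicative (ZMod p)) :=
  {f | IsOpen (f.ker : Set K.fixingSubgroup) ∧ Unramified S f}

/-- `L` has no cyclic extension of degree `p` unramified outside `S`. -/
def NoCyclic {F : Type} [Field F] (S : Set (Ideal (𝓞 F)))
    (L : IntermediateField F (AlgebraicClosure F)) (p : ℕ) : Prop :=
  ∀ f ∈ Characters S L p, ∀ g, f g = 1

/-- `K/F` is a finite Galois extension with an abelian Galois group of exponent dividing `m`. -/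
def AbelianOfExponent {F : Type} [Field F] (K : IntermediateField F (AlgebraicClosure F)) (m : ℕ) : Prop :=
  FiniteDimensional F K ∧ (∀ σ : Gal(AlgebraicClosure F/F), ∀ x ∈ K, σ x ∈ K) ∧
    (∀ σ τ : Gal(AlgebraicClosure F/F), ∀ x ∈ K, σ (τ x) = τ (σ x)) ∧
    ∀ σ : Gal(AlgebraicClosure F/F), ∀ x ∈ K, (σ ^ m) x = x

/-- The homomorphisms from the absolute Galois group of `K` to `ℤ/p`, continuous and unramified outside `S`, on which
the absolute Galois group of `F` acts by the character `ψ`. -/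
def Isotypic {F : Type} [Field F] (S : Set (Ideal (𝓞 F)))
    (K : IntermediateField F (AlgebraicClosure F)) (p : ℕ)
    (ψ : Gal(AlgebraicClosure F/F) →* (ZMod p)ˣ) : Set (K.fixingSubgroup →* Multiplicative (ZMod p)) :=
  {f | f ∈ Characters S K p ∧ ∀ (σ : Gal(AlgebraicClosure F/F)) (h h' : K.fixingSubgroup),
    (h' : Gal(AlgebraicClosure F/F)) = σ * h * σ⁻¹ →
      Multiplicative.toAdd (f h') = (ψ σ : ZMod p) * Multiplicative.toAdd (f h)}

/-- The character `ψ` occurs in `K`. -/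
def Occurs {F : Type} [Field F] (S : Set (Ideal (𝓞 F)))
    (K : IntermediateField F (AlgebraicClosure F)) (p : ℕ)
    (ψ : Gal(AlgebraicClosure F/F) →* (ZMod p)ˣ) : Prop :=
  ∃ f ∈ Isotypic S K p ψ, ∃ h, f h ≠ 1

/-- The character `ψ` occurs with multiplicity at most one in `K`. -/
def MultiplicityOne {F : Type} [Field F] (S : Set (Ideal (𝓞 F)))
    (K : IntermediateField F (AlgebraicClosure F)) (p : ℕ)
    (ψ : Gal(AlgebraicClosure F/F) →* (ZMod p)ˣ) : Prop :=
  ∀ f ∈ Isotypic S K p ψ, ∀ f' ∈ Isotypic S K p ψ, (∃ h, f h ≠ 1) → ∃ c : ℕ, ∀ h, f' h = f h ^ c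

/-- The set of the characters which occur in `K` is product-free: `ψ`, `ψ'` and `ψ ψ'` do not all occur, unless
`ψ = ψ'` occurs with multiplicity one. -/
def ProductFree {F : Type} [Field F] (S : Set (Ideal (𝓞 F)))
    (K : IntermediateField F (AlgebraicClosure F)) (p : ℕ) : Prop :=
  ∀ ψ ψ' : Gal(AlgebraicClosure F/F) →* (ZMod p)ˣ, Occurs S K p ψ → Occurs S K p ψ' →
    Occurs S K p (ψ * ψ') → ψ = ψ' ∧ MultiplicityOne S K p ψ

/-- `k₁`, `k₂`, `k₃` are the three quadratic subfields `F(√a)`, `F(√b)`, `F(√(ab))` of a biquadratic extension of `F`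
contained in `K`. -/
def QuadraticTriple {F : Type} [Field F] (K k₁ k₂ k₃ : IntermediateField F (AlgebraicClosure F)) : Prop :=
  (k₁ ≤ K ∧ k₂ ≤ K ∧ k₃ ≤ k₁ ⊔ k₂) ∧ (k₁ ≠ k₂ ∧ k₁ ≠ k₃ ∧ k₂ ≠ k₃) ∧
    Module.finrank F k₁ = 2 ∧ Module.finrank F k₂ = 2 ∧ Module.finrank F k₃ = 2

/-- Of any three quadratic extensions `F(√a)`, `F(√b)`, `F(√(ab))` of `F` contained in `K` at least one has no cyclic
extension of degree `p` unramified outside `S`. -/
def TriplesPrimeTo {F : Type} [Field F] (S : Set (Ideal (𝓞 F)))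
    (K : IntermediateField F (AlgebraicClosure F)) (p : ℕ) : Prop :=
  ∀ k₁ k₂ k₃ : IntermediateField F (AlgebraicClosure F), QuadraticTriple K k₁ k₂ k₃ →
    NoCyclic S k₁ p ∨ NoCyclic S k₂ p ∨ NoCyclic S k₃ p

/-- `Fil` is a separated filtration of the group `U = Fil m` by subgroups, from the index `m` on, such that
commutators add the indices and the `p`-th power map is an injective homomorphism from `Fil i / Fil (i + 1)` to
`Fil (i + r) / Fil (i + r + 1)`. -/
structure Valued {U : Type} [Group U] (p r m : ℕ) (Fil : ℕ → Subgroup U) : Prop where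
  top : Fil m = ⊤
  anti : ∀ i, Fil (i + 1) ≤ Fil i
  comm : ∀ i j, m ≤ i → m ≤ j → ∀ x ∈ Fil i, ∀ y ∈ Fil j, x * y * x⁻¹ * y⁻¹ ∈ Fil (i + j)
  pow : ∀ i, m ≤ i → ∀ x ∈ Fil i, x ^ p ∈ Fil (i + r)
  hom : ∀ i, m ≤ i → ∀ x ∈ Fil i, ∀ y ∈ Fil i, (x * y) ^ p * (x ^ p * y ^ p)⁻¹ ∈ Fil (i + r + 1)
  inj : ∀ i, m ≤ i → ∀ x ∈ Fil i, x ^ p ∈ Fil (i + r + 1) → x ∈ Fil (i + 1)
  sep : ∀ x, (∀ i, x ∈ Fil i) → x = 1

/-- Every homomorphism from the absolute Galois group of `K` to a valued group `U` with `m = e r`, continuous for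
the topology of the filtration and unramified outside `S`, is trivial. -/
def OnlyTrivial {F : Type} [Field F] (S : Set (Ideal (𝓞 F)))
    (K : IntermediateField F (AlgebraicClosure F)) (p e : ℕ) : Prop :=
  ∀ (U : Type) [Group U] (Fil : ℕ → Subgroup U) (r : ℕ), 1 ≤ r → Valued p r (e * r) Fil →
    ∀ ρ : K.fixingSubgroup →* U, (∀ N, IsOpen {g | ρ g ∈ Fil N}) → Unramified S ρ → ∀ g, ρ g = 1

theorem inertia_conj {F : Type} [Field F] (S : Set (Ideal (𝓞 F)))
    (σ τ : Gal(AlgebraicClosure F/F)) (hτ : τ ∈ inertia S) : σ * τ * σ⁻¹ ∈ inertia S := by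
  obtain ⟨P, hP, hPS, hPτ⟩ := hτ
  let φ : 𝓞 (AlgebraicClosure F) ≃+* 𝓞 (AlgebraicClosure F) :=
    MulSemiringAction.toRingEquiv (Gal(AlgebraicClosure F/F)) (𝓞 (AlgebraicClosure F)) σ⁻¹
  have hφ : ∀ x, φ x = σ⁻¹ • x := fun _ => rfl
  refine ⟨P.comap (φ : 𝓞 (AlgebraicClosure F) →+* 𝓞 (AlgebraicClosure F)),
    Ideal.comap_isMaximal_of_surjective _ φ.surjective, ?_, fun x => ?_⟩
  · have h1 : (P.comap (φ : 𝓞 (AlgebraicClosure F) →+* 𝓞 (AlgebraicClosure F))).comap
        (algebraMap (𝓞 F) (𝓞 (AlgebraicClosure F))) =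
        P.comap (algebraMap (𝓞 F) (𝓞 (AlgebraicClosure F))) := by
      ext x
      rw [Ideal.mem_comap, Ideal.mem_comap, Ideal.mem_comap]
      have h2 : (φ : 𝓞 (AlgebraicClosure F) →+* 𝓞 (AlgebraicClosure F))
          (algebraMap (𝓞 F) (𝓞 (AlgebraicClosure F)) x) =
          algebraMap (𝓞 F) (𝓞 (AlgebraicClosure F)) x := by
        show σ⁻¹ • algebraMap (𝓞 F) (𝓞 (AlgebraicClosure F)) x = _
        apply RingOfIntegers.ext
        show σ⁻¹ (algebraMap F (AlgebraicClosure F) x) = algebraMap F (AlgebraicClosure F) x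
        exact AlgEquiv.commutes σ⁻¹ (x : F)
      rw [h2]
    rw [h1]
    exact hPS
  · have h1 : (φ : 𝓞 (AlgebraicClosure F) →+* 𝓞 (AlgebraicClosure F)) ((σ * τ * σ⁻¹) • x - x) =
        τ • (σ⁻¹ • x) - σ⁻¹ • x := by
      show σ⁻¹ • ((σ * τ * σ⁻¹) • x - x) = τ • (σ⁻¹ • x) - σ⁻¹ • x
      rw [smul_sub, smul_smul, smul_smul]
      congr 2
      group
    rw [Ideal.mem_comap, h1]
    exact hPτ _

theorem inertia_pow {F : Type} [Field F] (S : Set (Ideal (𝓞 F)))
    (τ : Gal(AlgebraicClosure F/F)) (hτ : τ ∈ inertia S) (n : ℕ) : τ ^ n ∈ inertia S := by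
  obtain ⟨P, hP, hPS, hPτ⟩ := hτ
  refine ⟨P, hP, hPS, fun x => ?_⟩
  induction n with
  | zero => rw [pow_zero, one_smul, sub_self]; exact P.zero_mem
  | succ n ih =>
    have h1 : τ ^ (n + 1) • x - x = (τ • (τ ^ n • x) - τ ^ n • x) + (τ ^ n • x - x) := by
      rw [pow_succ', mul_smul, sub_add_sub_cancel]
    rw [h1]
    exact P.add_mem (hPτ _) ih

theorem normal_fix {F : Type} [Field F] (K : IntermediateField F (AlgebraicClosure F))
    (h : ∀ σ : Gal(AlgebraicClosure F/F), ∀ x ∈ K, σ x ∈ K) : K.fixingSubgroup.Normal := by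
  constructor
  intro g hg σ
  rw [IntermediateField.mem_fixingSubgroup_iff] at hg ⊢
  intro x hx
  show σ (g (σ⁻¹ x)) = x
  rw [hg _ (h σ⁻¹ x hx)]
  exact AlgEquiv.apply_symm_apply σ x

theorem quot_comm {F : Type} [Field F] (K : IntermediateField F (AlgebraicClosure F))
    [K.fixingSubgroup.Normal]
    (h : ∀ σ τ : Gal(AlgebraicClosure F/F), ∀ x ∈ K, σ (τ x) = τ (σ x))
    (a b : Gal(AlgebraicClosure F/F) ⧸ K.fixingSubgroup) : a * b = b * a := by
  obtain ⟨σ, rfl⟩ := QuotientGroup.mk'_surjective _ a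
  obtain ⟨τ, rfl⟩ := QuotientGroup.mk'_surjective _ b
  rw [← map_mul, ← map_mul, ← inv_mul_eq_one, ← map_inv, ← map_mul]
  refine (QuotientGroup.eq_one_iff _).2 ?_
  rw [IntermediateField.mem_fixingSubgroup_iff]
  intro x hx
  show (σ * τ)⁻¹ (τ (σ x)) = x
  rw [← h σ τ x hx]
  exact AlgEquiv.symm_apply_apply (σ * τ) x

theorem quot_pow {F : Type} [Field F] (K : IntermediateField F (AlgebraicClosure F))
    [K.fixingSubgroup.Normal] {m : ℕ}
    (h : ∀ σ : Gal(AlgebraicClosure F/F), ∀ x ∈ K, (σ ^ m) x = x)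
    (a : Gal(AlgebraicClosure F/F) ⧸ K.fixingSubgroup) : a ^ m = 1 := by
  obtain ⟨σ, rfl⟩ := QuotientGroup.mk'_surjective _ a
  rw [← map_pow]
  refine (QuotientGroup.eq_one_iff _).2 ?_
  rw [IntermediateField.mem_fixingSubgroup_iff]
  exact h σ

theorem card_prime_to {D : Type} [Group D] [Finite D] {p m : ℕ} (hp : p.Prime) (hm : ¬ p ∣ m)
    (h : ∀ a : D, a ^ m = 1) : ¬ p ∣ Nat.card D := by
  intro hd
  have : Fact p.Prime := ⟨hp⟩
  obtain ⟨a, ha⟩ := exists_prime_orderOf_dvd_card' p hd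
  exact hm (by rw [← ha]; exact orderOf_dvd_of_pow_eq_one (h a))

open Pool.Agent.X148.FM in
/-- the criterion -/
theorem part_crit (p : ℕ) [Fact p.Prime] (F : Type) [Field F] [NumberField F]
    (K : IntermediateField F (AlgebraicClosure F)) [FiniteDimensional F K]
    [hn : K.fixingSubgroup.Normal]
    (hpD : ¬ p ∣ Nat.card (Gal(AlgebraicClosure F/F) ⧸ K.fixingSubgroup)) (S : Set (Ideal (𝓞 F)))
    (hNP : NoPerf p (QuotientGroup.mk' K.fixingSubgroup) K.fixingSubgroup (inertia S)) (e : ℕ)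
    (he : 1 ≤ e) (hE : AbelianExponent S K p e) : OnlyTrivial S K p e := by
  have hp : p.Prime := Fact.out
  have hKo : IsOpen (K.fixingSubgroup : Set Gal(AlgebraicClosure F/F)) :=
    IntermediateField.fixingSubgroup_isOpen K
  have hcomp : CompactSpace K.fixingSubgroup :=
    isCompact_iff_compactSpace.1 (Subgroup.isClosed_of_isOpen _ hKo).isCompact
  have hfinD : Finite (Gal(AlgebraicClosure F/F) ⧸ K.fixingSubgroup) :=
    Subgroup.quotient_finite_of_isOpen _ hKo
  have hker : ∀ σ, σ ∈ K.fixingSubgroup ↔ QuotientGroup.mk' K.fixingSubgroup σ = 1 := fun σ =>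
    (QuotientGroup.eq_one_iff σ).symm
  have hIc : ∀ σ, ∀ τ ∈ inertia S, σ * τ * σ⁻¹ ∈ inertia S := fun σ τ hτ => inertia_conj S σ τ hτ
  have hE' : ∀ (E : Type) [CommGroup E] [Finite E], IsPGroup p E →
      ∀ f : K.fixingSubgroup →* E, IsOpen (f.ker : Set K.fixingSubgroup) →
      (∀ τ : K.fixingSubgroup, (τ : Gal(AlgebraicClosure F/F)) ∈ inertia S → f τ = 1) →
      ∀ g, f g ^ (p ^ e) = 1 := fun E _ _ hE' f hf hfu g => hE E hE' f hf hfu g
  intro U _ Fil r hr hFil ρ hρ hur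
  have hF : PVal p r (e * r) Fil :=
    ⟨hFil.top, hFil.anti, hFil.comm, hFil.pow, hFil.hom, hFil.inj, hFil.sep⟩
  refine hF.triv he hr rfl hpD (QuotientGroup.mk' K.fixingSubgroup)
    (QuotientGroup.mk'_surjective _) K.fixingSubgroup hker (inertia S) hIc hE' hNP
    ρ hur (fun N => ?_)
  refine (hρ N).mem_nhds ?_
  show ρ 1 ∈ Fil N
  rw [map_one]
  exact Subgroup.one_mem _

/-- passage to subfields -/
theorem part_sub (p : ℕ) [Fact p.Prime] (F : Type) [Field F] [NumberField F]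
    (K K' : IntermediateField F (AlgebraicClosure F)) [FiniteDimensional F K] (hK : K' ≤ K)
    (S : Set (Ideal (𝓞 F))) (e : ℕ) (h : OnlyTrivial S K p e) : OnlyTrivial S K' p e := by
  have hp : p.Prime := Fact.out
  intro U _ Fil r hr1 hFil ρ hρ hur g
  have hle : K.fixingSubgroup ≤ K'.fixingSubgroup := IntermediateField.fixingSubgroup_le hK
  have hF : Pool.Agent.X148.FM.PVal p r (e * r) Fil :=
    ⟨hFil.top, hFil.anti, hFil.comm, hFil.pow, hFil.hom, hFil.inj, hFil.sep⟩
  let i : K.fixingSubgroup →* K'.fixingSubgroup := Subgroup.inclusion hle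
  have hic : Continuous i := Continuous.subtype_mk continuous_subtype_val _
  have h1 := h U Fil r hr1 hFil (ρ.comp i) (fun N => (hρ N).preimage hic) (fun τ hτ => hur (i τ) hτ)
  have h2 : K.fixingSubgroup.index ≠ 0 := by
    rw [← IntermediateField.finrank_eq_fixingSubgroup_index]
    exact Module.finrank_pos.ne'
  obtain ⟨n, hn, -, hgn⟩ := Subgroup.exists_pow_mem_of_index_ne_zero h2
    (g : Gal(AlgebraicClosure F/F))
  refine hF.torsionFree hp hr1 (n := n) hn.ne' ?_
  rw [← map_pow]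
  exact h1 ⟨(g : Gal(AlgebraicClosure F/F)) ^ n, hgn⟩

open Pool.Agent.X148.FM in
theorem occ_iff {p : ℕ} {F : Type} [Field F] (S : Set (Ideal (𝓞 F)))
    (K : IntermediateField F (AlgebraicClosure F)) (ψ : Gal(AlgebraicClosure F/F) →* (ZMod p)ˣ) :
    Occ p K.fixingSubgroup (inertia S) ψ ↔ Occurs S K p ψ := by
  constructor
  · rintro ⟨f, h1, h2, h3, h4⟩
    exact ⟨f, ⟨⟨h1, h2⟩, h3⟩, h4⟩
  · rintro ⟨f, ⟨⟨h1, h2⟩, h3⟩, h4⟩
    exact ⟨f, h1, h2, h3, h4⟩

open Pool.Agent.X148.FM in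
/-- part (1) -/
theorem part_one (p : ℕ) [Fact p.Prime] (F : Type) [Field F] [NumberField F]
    (K : IntermediateField F (AlgebraicClosure F)) (hK : AbelianOfExponent K (p - 1))
    (S : Set (Ideal (𝓞 F))) (hS : ProductFree S K p) (e : ℕ) (he : 1 ≤ e)
    (hE : AbelianExponent S K p e) : OnlyTrivial S K p e := by
  have hp : p.Prime := Fact.out
  obtain ⟨hfd, hnor, hcomm, hexp⟩ := hK
  have hn : K.fixingSubgroup.Normal := normal_fix K hnor
  have hKo : IsOpen (K.fixingSubgroup : Set Gal(AlgebraicClosure F/F)) :=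
    IntermediateField.fixingSubgroup_isOpen K
  have hfinD : Finite (Gal(AlgebraicClosure F/F) ⧸ K.fixingSubgroup) :=
    Subgroup.quotient_finite_of_isOpen _ hKo
  have hpD : ¬ p ∣ Nat.card (Gal(AlgebraicClosure F/F) ⧸ K.fixingSubgroup) :=
    card_prime_to (m := p - 1) hp
      (fun h => absurd (Nat.le_of_dvd (by have := hp.two_le; omega) h)
        (by have := hp.two_le; omega)) (quot_pow K hexp)
  refine part_crit p F K hpD S (noPerf_char hpD (quot_comm K hcomm) (quot_pow K hexp) _ _ _ ?_) e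
    he hE
  intro ψ ψ' h1 h2 h3
  rw [occ_iff] at h1 h2 h3
  obtain ⟨h4, h5⟩ := hS _ _ h1 h2 h3
  refine ⟨?_, ?_⟩
  · refine MonoidHom.ext fun d => ?_
    obtain ⟨σ, rfl⟩ := QuotientGroup.mk'_surjective _ d
    exact DFunLike.congr_fun h4 σ
  · refine atMostOne_of _ _ _ fun f f' hf hf' hne => ?_
    exact h5 f ⟨⟨hf.isOpen, hf.triv⟩, hf.equiv⟩ f' ⟨⟨hf'.isOpen, hf'.triv⟩, hf'.equiv⟩ hne

open Pool.Agent.X148.FM in
/-- part (2) -/
theorem part_two (p : ℕ) [Fact p.Prime] (hp2 : p ≠ 2) (F : Type) [Field F] [NumberField F]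
    (K : IntermediateField F (AlgebraicClosure F)) (hK : AbelianOfExponent K 2)
    (S : Set (Ideal (𝓞 F)))
    (hF : ∀ f : Gal(AlgebraicClosure F/F) →* Multiplicative (ZMod p),
      IsOpen (f.ker : Set Gal(AlgebraicClosure F/F)) → (∀ τ ∈ inertia S, f τ = 1) → ∀ g, f g = 1)
    (hS : TriplesPrimeTo S K p) (e : ℕ) (he : 1 ≤ e)
    (hE : AbelianExponent S K p e) : OnlyTrivial S K p e := by
  have hp : p.Prime := Fact.out
  have hp2' : ¬ p ∣ 2 := fun h => hp2 ((Nat.prime_dvd_prime_iff_eq hp Nat.prime_two).1 h)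
  have hodd : Odd p := hp.odd_of_ne_two hp2
  obtain ⟨hfd, hnor, hcomm, hexp⟩ := hK
  have hn : K.fixingSubgroup.Normal := normal_fix K hnor
  have hKo : IsOpen (K.fixingSubgroup : Set Gal(AlgebraicClosure F/F)) :=
    IntermediateField.fixingSubgroup_isOpen K
  have hfinD : Finite (Gal(AlgebraicClosure F/F) ⧸ K.fixingSubgroup) :=
    Subgroup.quotient_finite_of_isOpen _ hKo
  have hfi : K.fixingSubgroup.FiniteIndex := Subgroup.finiteIndex_of_finite_quotient
  have hpD : ¬ p ∣ K.fixingSubgroup.index := card_prime_to (m := 2) hp hp2' (quot_pow K hexp)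
  refine part_one p F K ⟨hfd, hnor, hcomm, ?_⟩ S ?_ e he hE
  · intro σ x hx
    obtain ⟨m, hm⟩ := (Nat.Prime.even_sub_one hp hp2).two_dvd
    rw [hm]
    have h1 : (σ ^ m ^ 1) x ∈ K := hnor _ x hx
    have h2 := hexp (σ ^ m) x hx
    rwa [← pow_mul, mul_comm] at h2
  intro ψ ψ' h1 h2 h3
  exfalso
  have hI : ∀ τ ∈ inertia S, ∀ k : ℕ, τ ^ k ∈ inertia S := fun τ hτ k => inertia_pow S τ hτ k
  -- characters which occur
  have htriv : ∀ χ : Gal(AlgebraicClosure F/F) →* (ZMod p)ˣ, Occurs S K p χ →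
      ∀ σ ∈ K.fixingSubgroup, χ σ = 1 := by
    rintro χ ⟨f, ⟨-, hf⟩, h, hh⟩ σ hσ
    have h4 := hf σ h (⟨σ, hσ⟩ * h * ⟨σ, hσ⟩⁻¹) rfl
    have hfe : f (⟨σ, hσ⟩ * h * ⟨σ, hσ⟩⁻¹) = f h := by
      rw [map_mul f, map_mul f, map_inv f, mul_comm (f ⟨σ, hσ⟩), mul_inv_cancel_right]
    rw [hfe] at h4
    have h5 : Multiplicative.toAdd (f h) ≠ 0 := fun h0 => hh (Multiplicative.toAdd.injective h0)
    have h6 : (χ σ : ZMod p) = 1 := by
      have h7 : ((χ σ : ZMod p) - 1) * Multiplicative.toAdd (f h) = 0 := by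
        rw [sub_mul, one_mul, ← h4, sub_self]
      rcases mul_eq_zero.1 h7 with h8 | h8
      · exact sub_eq_zero.1 h8
      · exact absurd h8 h5
    exact Units.ext h6
  have hsq : ∀ χ : Gal(AlgebraicClosure F/F) →* (ZMod p)ˣ, Occurs S K p χ → ∀ σ, χ σ ^ 2 = 1 := by
    intro χ hχ σ
    rw [← map_pow]
    refine htriv χ hχ _ ?_
    rw [IntermediateField.mem_fixingSubgroup_iff]
    exact hexp σ
  have hne : ∀ χ : Gal(AlgebraicClosure F/F) →* (ZMod p)ˣ, Occurs S K p χ → χ ≠ 1 := by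
    rintro χ hχ rfl
    exact not_occ_one K.fixingSubgroup hpD hKo (inertia S) hI (fun f hf hfI g => hF f hf hfI g)
      ((occ_iff S K 1).2 hχ)
  have hle : ∀ χ : Gal(AlgebraicClosure F/F) →* (ZMod p)ˣ, Occurs S K p χ →
      K.fixingSubgroup ≤ χ.ker := fun χ hχ σ hσ => htriv χ hχ σ hσ
  have hop : ∀ χ : Gal(AlgebraicClosure F/F) →* (ZMod p)ˣ, Occurs S K p χ →
      IsOpen (χ.ker : Set Gal(AlgebraicClosure F/F)) := fun χ hχ =>
    Subgroup.isOpen_mono (hle χ hχ) hKo
  -- the quadratic fields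
  have hfix : ∀ χ : Gal(AlgebraicClosure F/F) →* (ZMod p)ˣ, Occurs S K p χ →
      (IntermediateField.fixedField χ.ker).fixingSubgroup = χ.ker := by
    intro χ hχ
    exact InfiniteGalois.fixingSubgroup_fixedField
      ⟨χ.ker, Subgroup.isClosed_of_isOpen _ (hop χ hχ)⟩
  have hleK : ∀ χ : Gal(AlgebraicClosure F/F) →* (ZMod p)ˣ, Occurs S K p χ →
      IntermediateField.fixedField χ.ker ≤ K := by
    intro χ hχ
    rw [← InfiniteGalois.fixedField_fixingSubgroup K]
    exact IntermediateField.fixedField_antitone (hle χ hχ)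
  have hdeg : ∀ χ : Gal(AlgebraicClosure F/F) →* (ZMod p)ˣ, Occurs S K p χ →
      Module.finrank F (IntermediateField.fixedField χ.ker) = 2 := by
    intro χ hχ
    have hfd' : FiniteDimensional F (IntermediateField.fixedField χ.ker) :=
      Module.Finite.of_injective (IntermediateField.inclusion (hleK χ hχ)).toLinearMap
        (IntermediateField.inclusion (hleK χ hχ)).injective
    rw [IntermediateField.finrank_eq_fixingSubgroup_index, hfix χ hχ]
    exact quad_index χ (hsq χ hχ) (hne χ hχ)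
  have hcyc : ∀ χ : Gal(AlgebraicClosure F/F) →* (ZMod p)ˣ, Occurs S K p χ →
      ¬ NoCyclic S (IntermediateField.fixedField χ.ker) p := by
    intro χ hχ hno
    refine not_occ_sub K.fixingSubgroup (IntermediateField.fixedField χ.ker).fixingSubgroup
      (by rw [hfix χ hχ]; exact hle χ hχ) hpD hKo (inertia S) hI χ
      (by rw [hfix χ hχ]; exact fun σ hσ => hσ) (fun f hf hfI g => hno f ⟨hf, hfI⟩ g)
      ((occ_iff S K χ).2 hχ)
  have hneq : ∀ χ χ' : Gal(AlgebraicClosure F/F) →* (ZMod p)ˣ, Occurs S K p χ →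
      Occurs S K p χ' → χ ≠ χ' →
      IntermediateField.fixedField χ.ker ≠ IntermediateField.fixedField χ'.ker := by
    intro χ χ' hχ hχ' hne h
    apply hne
    refine quad_eq χ χ' (hsq χ hχ) (hsq χ' hχ') ?_
    rw [← hfix χ hχ, ← hfix χ' hχ', h]
  have e12 : ψ ≠ ψ' := by
    rintro rfl
    apply hne _ h3
    ext σ
    rw [MonoidHom.mul_apply, ← pow_two, hsq _ h1, MonoidHom.one_apply]
  have e13 : ψ ≠ ψ * ψ' := by
    intro h
    apply hne _ h2
    ext σ
    have h4 := DFunLike.congr_fun h σ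
    rw [MonoidHom.mul_apply, left_eq_mul] at h4
    rw [h4, MonoidHom.one_apply]
  have e23 : ψ' ≠ ψ * ψ' := by
    intro h
    apply hne _ h1
    ext σ
    have h4 := DFunLike.congr_fun h σ
    rw [MonoidHom.mul_apply, right_eq_mul] at h4
    rw [h4, MonoidHom.one_apply]
  have h33 : IntermediateField.fixedField (ψ * ψ').ker ≤
      IntermediateField.fixedField ψ.ker ⊔ IntermediateField.fixedField ψ'.ker := by
    rw [← InfiniteGalois.fixedField_fixingSubgroup
      (IntermediateField.fixedField ψ.ker ⊔ IntermediateField.fixedField ψ'.ker)]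
    refine IntermediateField.fixedField_antitone ?_
    rw [IntermediateField.fixingSubgroup_sup, hfix ψ h1, hfix ψ' h2]
    rintro σ ⟨ha, hb⟩
    have ha' : ψ σ = 1 := ha
    have hb' : ψ' σ = 1 := hb
    rw [MonoidHom.mem_ker, MonoidHom.mul_apply, ha', hb', mul_one]
  rcases hS _ _ _ ⟨⟨hleK ψ h1, hleK ψ' h2, h33⟩, ⟨hneq _ _ h1 h2 e12, hneq _ _ h1 h3 e13,
    hneq _ _ h2 h3 e23⟩, hdeg _ h1, hdeg _ h2, hdeg _ h3⟩ with h | h | h
  · exact hcyc _ h1 h
  · exact hcyc _ h2 h
  · exact hcyc _ h3 h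

/-- the base field -/
theorem base_cyclic {p : ℕ} {F : Type} [Field F] (S : Set (Ideal (𝓞 F))) (h : NoCyclic S ⊥ p)
    (f : Gal(AlgebraicClosure F/F) →* Multiplicative (ZMod p))
    (hf : IsOpen (f.ker : Set Gal(AlgebraicClosure F/F))) (hu : ∀ τ ∈ inertia S, f τ = 1)
    (g : Gal(AlgebraicClosure F/F)) : f g = 1 := by
  have hg : g ∈ (⊥ : IntermediateField F (AlgebraicClosure F)).fixingSubgroup := by
    rw [IntermediateField.fixingSubgroup_bot]
    exact Subgroup.mem_top _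
  exact h (f.comp (Subgroup.subtype _)) ⟨hf.preimage continuous_subtype_val,
    fun τ hτ => hu _ hτ⟩ ⟨g, hg⟩

/-- the prime ideals of `ℚ` which contain a number in `S` -/
def above (S : Set ℕ) : Set (Ideal (𝓞 ℚ)) := {P | ∃ l ∈ S, (l : 𝓞 ℚ) ∈ P}

theorem mem_above (S : Set ℕ) (P : Ideal (𝓞 (AlgebraicClosure ℚ))) :
    P.comap (algebraMap (𝓞 ℚ) (𝓞 (AlgebraicClosure ℚ))) ∉ above S ↔
      ∀ l ∈ S, (l : 𝓞 (AlgebraicClosure ℚ)) ∉ P := by
  unfold above
  simp only [Set.mem_ofPred_eq, Ideal.mem_comap, map_natCast, not_exists, not_and]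

open Pool.Agent.W569.FM in
theorem rational_aux (p : ℕ) (hp : p.Prime) (S : Set ℕ)
    (hS : ∀ l ∈ S, l.Prime ∧ l ≠ p ∧ ¬ p ∣ l - 1) {E : Type} [CommGroup E] [Finite E]
    (hpg : IsPGroup p E) (f : GF ℚ →* E) (hf : IsOpen (f.ker : Set (GF ℚ)))
    (hu : ∀ P : Ideal (OO ℚ), P.IsMaximal → (∀ l ∈ S, (l : OO ℚ) ∉ P) → ∀ τ : GF ℚ,
      InInertia P τ → f τ = 1) : ∀ g, f g = 1 := by
  have hGEN : S_GEN := Pool.Agent.W215.FM.main
  have hTAME : S_TAME := Pool.Agent.W327.FM.main Pool.Agent.W258.FM.main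
  have hFROB : S_FROB := Pool.Agent.W571.FM.main
  refine hGEN _ f hf fun P hP τ hτ => ?_
  by_cases h : ∀ l ∈ S, (l : OO ℚ) ∉ P
  · exact hu P hP h τ hτ
  · push Not at h
    obtain ⟨l, hlS, hlP⟩ := h
    obtain ⟨hl, hlp, hpl⟩ := hS l hlS
    obtain ⟨⟨Q, hQ, hlQ, σ, hσ⟩, hconj⟩ := hFROB l hl
    obtain ⟨g, hg⟩ := hconj Q P hQ hP hlQ hlP
    have h1 : f τ = f (g⁻¹ * τ * g) := by
      rw [map_mul, map_mul, map_inv, mul_comm, mul_inv_cancel_left]
    rw [h1]
    have h2 := (hTAME p l hp hl hlp.symm _ hpg f hf Q hQ hlQ).1 _ (hg τ hτ) σ hσ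
    rw [map_mul, map_mul, map_inv, mul_comm (f σ), mul_inv_cancel_right] at h2
    exact eq_one_of_pow hp hl.one_le hpl (hpg _) h2

/-- the rational numbers have no cyclic extension of degree `p` which is tame and ramified only at
primes `l ≢ 1` modulo `p` -/
theorem rational (p : ℕ) [Fact p.Prime] (S : Set ℕ) (hS : ∀ l ∈ S, l.Prime ∧ l ≠ p ∧ ¬ p ∣ l - 1)
    (f : Gal(AlgebraicClosure ℚ/ℚ) →* Multiplicative (ZMod p))
    (hf : IsOpen (f.ker : Set Gal(AlgebraicClosure ℚ/ℚ)))
    (hu : ∀ τ ∈ inertia (above S), f τ = 1) : ∀ g, f g = 1 := by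
  have hpg : IsPGroup p (Multiplicative (ZMod p)) := by
    refine IsPGroup.of_card (n := 1) ?_
    rw [pow_one, Nat.card_congr Multiplicative.toAdd, Nat.card_zmod]
  exact rational_aux p Fact.out S hS hpg f hf fun P hP h τ hτ =>
    hu τ ⟨P, hP, (mem_above S P).2 h, hτ⟩

/-- **Product-free sets of characters, and multiquadratic fields.** -/
theorem result :
    -- (1) abelian extensions `K/F` of exponent dividing `p - 1` and subfields `K'` of `K`
    (∀ (p : ℕ) [Fact p.Prime] (F : Type) [Field F] [NumberField F]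
      (K K' : IntermediateField F (AlgebraicClosure F)),
      AbelianOfExponent K (p - 1) → K' ≤ K → ∀ S : Set (Ideal (𝓞 F)), ProductFree S K p →
      ∀ e : ℕ, 1 ≤ e → AbelianExponent S K p e → OnlyTrivial S K' p e) ∧
    -- (2) multiquadratic extensions
    (∀ (p : ℕ) [Fact p.Prime], p ≠ 2 → ∀ (F : Type) [Field F] [NumberField F]
      (K K' : IntermediateField F (AlgebraicClosure F)),
      AbelianOfExponent K 2 → K' ≤ K → ∀ S : Set (Ideal (𝓞 F)), NoCyclic S ⊥ p →
      TriplesPrimeTo S K p → ∀ e : ℕ, 1 ≤ e → AbelianExponent S K p e → OnlyTrivial S K' p e) ∧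
    -- (3) multiquadratic fields
    (∀ (p : ℕ) [Fact p.Prime], p ≠ 2 → ∀ K K' : IntermediateField ℚ (AlgebraicClosure ℚ),
      AbelianOfExponent K 2 → K' ≤ K → ∀ S : Set ℕ, (∀ l ∈ S, l.Prime ∧ l ≠ p ∧ ¬ p ∣ l - 1) →
      TriplesPrimeTo (above S) K p →
      ∀ e : ℕ, 1 ≤ e → AbelianExponent (above S) K p e → OnlyTrivial (above S) K' p e) := by
  refine ⟨?_, ?_, ?_⟩
  · intro p _ F _ _ K K' h1 h2 S h3 e h4 h5
    have := h1.1
    exact part_sub p F K K' h2 S e (part_one p F K h1 S h3 e h4 h5)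
  · intro p _ hp F _ _ K K' h1 h2 S h0 h3 e h4 h5
    have := h1.1
    exact part_sub p F K K' h2 S e (part_two p hp F K h1 S (base_cyclic S h0) h3 e h4 h5)
  · intro p _ hp K K' h1 h2 S h0 h3 e h4 h5
    have := h1.1
    exact part_sub p ℚ K K' h2 (above S) e
      (part_two p hp ℚ K h1 (above S) (fun f hf hu => rational p S h0 f hf hu) h3 e h4 h5)

end Pool.Agent.Results.MP_ca71b5_nt.ProductFreeCharacters
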