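import Pool.Agent.X148.FM.Val2
import Pool.Agent.W215.FM.Gen
import Pool.Agent.W327.FM.TameAbs
import Pool.Agent.W258.FM.TameFin
import Pool.Agent.W571.FM.Frob

/-!
# Homomorphisms from Galois groups to `p`-valued groups: a criterion on the class group as a module

Let `K/F` be a finite Galois extension of number fields of degree prime to `p`, `D = Gal(K/F)`, and let `S` be a
set of primes of `F` (for the unramified Fontaine-Mazur conjecture the empty set).  Let `V` be the Galois group of
the maximal elementary abelian `p`-extension of `K` which is unramified outside `S`, an `𝔽_p[D]`-module (the class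
group of `K` modulo `p`, if `S` is empty and `p` is odd or `K` totally complex), and suppose that `p ^ e`, `e ≥ 1`,
kills the Galois groups of the finite abelian `p`-extensions of `K` unramified outside `S`.

Let `U` be a group with a filtration `U = U_m ⊇ U_(m+1) ⊇ ...`, `m = e r`, `r ≥ 1`, by subgroups with trivial
intersection such that `[U_i, U_j] ⊆ U_(i+j)` and the `p`-th power map is an injective homomorphism from
`U_i / U_(i+1)` to `U_(i+r) / U_(i+r+1)`.  (An example is a uniform pro-`p` group `U` with `[U, U] ⊆ U^(p ^ e)`, with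
`r = 1` and `U_(e+i) = U^(p ^ i)`; if `e = 1` and `p` is odd this is no condition on the uniform group `U`.)

Then every continuous homomorphism from the absolute Galois group of `K` to `U` which is unramified outside `S` is
trivial, if one of the following holds.

(1) No nonzero quotient module `W` of `V` carries a `D`-equivariant alternating bilinear product `W × W → W` whose
values span `W`.

(2) `p ≠ 2`, `K/F` is quadratic and `F` has no cyclic extension of degree `p` unramified outside `S`.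

(3) `p ≠ 2`, `F = ℚ`, `K` is quadratic, and `S` consists of prime numbers `l ≢ 0, 1 mod p`.

The homomorphism is not supposed to be stable under `D`.

Proof.  Let `m = e r ≤ k` and suppose that the image of `ρ` is in `U_k`.  The `p ^ e`-th powers of elements of
`G_K` are products of commutators modulo the kernel of `ρ` and its conjugates modulo `U_(k+m+1)`.  If `k > m` it
follows that the image of `ρ` is in `U_(k+1)`.  If `k = m`, the `p ^ e`-th powers of the conjugates of `ρ` give a
map of `G_K` onto a `D`-stable space `W` of functions on `D` with values in `U_(2m) / U_(2m+1)`, and `W` is contained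
in the span of the commutators.  A `D`-equivariant projection to `W` (Maschke) makes the commutator into a product
on `W` as in (1), so `W = 0`.
-/

set_option autoImplicit false

open NumberField

namespace Pool.Agent.Results.MP_ca71b5_nt.UniformQuotients

/-- The elements of the inertia groups in the absolute Galois group of `F` at the primes outside `S`: the `τ` such
that `τ x - x ∈ P` for all algebraic integers `x`, for some maximal ideal `P` of the ring of all algebraic integers
with `P ∩ 𝓞 F` not in `S`. -/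
def inertia {F : Type} [Field F] (S : Set (Ideal (𝓞 F))) : Set Gal(AlgebraicClosure F/F) :=
  {τ | ∃ P : Ideal (𝓞 (AlgebraicClosure F)), P.IsMaximal ∧
    P.comap (algebraMap (𝓞 F) (𝓞 (AlgebraicClosure F))) ∉ S ∧ ∀ x : 𝓞 (AlgebraicClosure F), τ • x - x ∈ P}

/-- The homomorphism `f` of the absolute Galois group of `K` is unramified outside `S`. -/
def Unramified {F : Type} [Field F] (S : Set (Ideal (𝓞 F)))
    {K : IntermediateField F (AlgebraicClosure F)} {E : Type} [Group E]
    (f : K.fixingSubgroup →* E) : Prop :=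
  ∀ τ : K.fixingSubgroup, (τ : Gal(AlgebraicClosure F/F)) ∈ inertia S → f τ = 1

/-- `p ^ e` kills the Galois group of every finite abelian extension of `K` of `p`-power degree which is
unramified outside `S`. -/
def AbelianExponent {F : Type} [Field F] (S : Set (Ideal (𝓞 F)))
    (K : IntermediateField F (AlgebraicClosure F)) (p e : ℕ) : Prop :=
  ∀ (E : Type) [CommGroup E] [Finite E], IsPGroup p E → ∀ f : K.fixingSubgroup →* E,
    IsOpen (f.ker : Set K.fixingSubgroup) → Unramified S f → ∀ g, f g ^ (p ^ e) = 1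

/-- The homomorphism `f` of the absolute Galois group of `K` to `W` is equivariant for the action `θ` of
`Gal(K/F)`. -/
def Equivariant {F : Type} [Field F] {K : IntermediateField F (AlgebraicClosure F)} [Normal F K] {p : ℕ}
    {W : Type} [AddCommGroup W] [Module (ZMod p) W] (θ : Representation (ZMod p) Gal(K/F) W)
    (f : K.fixingSubgroup →* Multiplicative W) : Prop :=
  ∀ (σ : Gal(AlgebraicClosure F/F)) (g g' : K.fixingSubgroup),
    (g' : Gal(AlgebraicClosure F/F)) = σ * g * σ⁻¹ → Multiplicative.toAdd (f g') =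
      θ (AlgEquiv.restrictNormalHom K σ) (Multiplicative.toAdd (f g))

/-- `b` is an equivariant alternating bilinear product on `W` whose values span `W`. -/
def PerfectProduct {D : Type} [Group D] {p : ℕ} {W : Type} [AddCommGroup W] [Module (ZMod p) W]
    (θ : Representation (ZMod p) D W) (b : W →ₗ[ZMod p] W →ₗ[ZMod p] W) : Prop :=
  (∀ w, b w w = 0) ∧ (∀ d w w', b (θ d w) (θ d w') = θ d (b w w')) ∧
    Submodule.span (ZMod p) {x | ∃ w w', x = b w w'} = ⊤

/-- No nonzero finite quotient module `W` over `𝔽_p[Gal(K/F)]` of the absolute Galois group of `K`, unramified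
outside `S`, carries an equivariant alternating bilinear product whose values span `W`. -/
def NoPerfectQuotient {F : Type} [Field F] (S : Set (Ideal (𝓞 F)))
    (K : IntermediateField F (AlgebraicClosure F)) [Normal F K] (p : ℕ) [Fact p.Prime] : Prop :=
  ∀ (W : Type) [AddCommGroup W] [Module (ZMod p) W] [Finite W]
    (θ : Representation (ZMod p) Gal(K/F) W) (f : K.fixingSubgroup →* Multiplicative W),
    Function.Surjective f → IsOpen (f.ker : Set K.fixingSubgroup) → Unramified S f →
    Equivariant θ f → ∀ b : W →ₗ[ZMod p] W →ₗ[ZMod p] W, PerfectProduct θ b → Subsingleton W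

/-- `F` has no cyclic extension of degree `p` unramified outside `S`. -/
def NoCyclic {F : Type} [Field F] (S : Set (Ideal (𝓞 F))) (p : ℕ) : Prop :=
  ∀ f : Gal(AlgebraicClosure F/F) →* Multiplicative (ZMod p),
    IsOpen (f.ker : Set Gal(AlgebraicClosure F/F)) → (∀ τ ∈ inertia S, f τ = 1) → ∀ g, f g = 1

/-- `Fil` is a separated filtration of the group `U = Fil m` by subgroups, from the index `m` on, such that
commutators add the indices and the `p`-th power map is an injective homomorphism from `Fil i / Fil (i + 1)` to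
`Fil (i + r) / Fil (i + r + 1)`. -/
structure Valued {U : Type} [Group U] (p r m : ℕ) (Fil : ℕ → Subgroup U) : Prop where
  top : Fil m = ⊤
  anti : ∀ i, Fil (i + 1) ≤ Fil i
  comm : ∀ i j, m ≤ i → m ≤ j → ∀ x ∈ Fil i, ∀ y ∈ Fil j, x * y * x⁻¹ * y⁻¹ ∈ Fil (i + j)
  pow : ∀ i, m ≤ i → ∀ x ∈ Fil i, x ^ p ∈ Fil (i + r)
  hom : ∀ i, m ≤ i → ∀ x ∈ Fil i, ∀ y ∈ Fil i, (x * y) ^ p * (x ^ p * y ^ p)⁻¹ ∈ Fil (i + r + 1)
  inj : ∀ i, m ≤ i → ∀ x ∈ Fil i, x ^ p ∈ Fil (i + r + 1) → x ∈ Fil (i + 1)
  sep : ∀ x, (∀ i, x ∈ Fil i) → x = 1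

/-- Every homomorphism from the absolute Galois group of `K` to a valued group `U` with `m = e r`, continuous for
the topology of the filtration and unramified outside `S`, is trivial. -/
def OnlyTrivial {F : Type} [Field F] (S : Set (Ideal (𝓞 F)))
    (K : IntermediateField F (AlgebraicClosure F)) (p e : ℕ) : Prop :=
  ∀ (U : Type) [Group U] (Fil : ℕ → Subgroup U) (r : ℕ), 1 ≤ r → Valued p r (e * r) Fil →
    ∀ ρ : K.fixingSubgroup →* U, (∀ N, IsOpen {g | ρ g ∈ Fil N}) → Unramified S ρ → ∀ g, ρ g = 1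

theorem inertia_conj {F : Type} [Field F] (S : Set (Ideal (𝓞 F)))
    (σ τ : Gal(AlgebraicClosure F/F)) (hτ : τ ∈ inertia S) : σ * τ * σ⁻¹ ∈ inertia S := by
  obtain ⟨P, hP, hPS, hPτ⟩ := hτ
  let φ : 𝓞 (AlgebraicClosure F) ≃+* 𝓞 (AlgebraicClosure F) :=
    MulSemiringAction.toRingEquiv (Gal(AlgebraicClosure F/F)) (𝓞 (AlgebraicClosure F)) σ⁻¹
  have hφ : ∀ x, φ x = σ⁻¹ • x := fun _ => rfl
  refine ⟨P.comap (φ : 𝓞 (AlgebraicClosure F) →+* 𝓞 (AlgebraicClosure F)),
    Ideal.comap_isMaximal_of_surjective _ φ.surjective, ?_, fun x => ?_⟩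
  · have h1 : (P.comap (φ : 𝓞 (AlgebraicClosure F) →+* 𝓞 (AlgebraicClosure F))).comap
        (algebraMap (𝓞 F) (𝓞 (AlgebraicClosure F))) =
        P.comap (algebraMap (𝓞 F) (𝓞 (AlgebraicClosure F))) := by
      ext x
      rw [Ideal.mem_comap, Ideal.mem_comap, Ideal.mem_comap]
      have h2 : (φ : 𝓞 (AlgebraicClosure F) →+* 𝓞 (AlgebraicClosure F))
          (algebraMap (𝓞 F) (𝓞 (AlgebraicClosure F)) x) =
          algebraMap (𝓞 F) (𝓞 (AlgebraicClosure F)) x := by
        show σ⁻¹ • algebraMap (𝓞 F) (𝓞 (AlgebraicClosure F)) x = _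
        apply RingOfIntegers.ext
        show σ⁻¹ (algebraMap F (AlgebraicClosure F) x) = algebraMap F (AlgebraicClosure F) x
        exact AlgEquiv.commutes σ⁻¹ (x : F)
      rw [h2]
    rw [h1]
    exact hPS
  · have h1 : (φ : 𝓞 (AlgebraicClosure F) →+* 𝓞 (AlgebraicClosure F)) ((σ * τ * σ⁻¹) • x - x) =
        τ • (σ⁻¹ • x) - σ⁻¹ • x := by
      show σ⁻¹ • ((σ * τ * σ⁻¹) • x - x) = τ • (σ⁻¹ • x) - σ⁻¹ • x
      rw [smul_sub, smul_smul, smul_smul]
      congr 2
      group
    rw [Ideal.mem_comap, h1]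
    exact hPτ _

theorem inertia_sq {F : Type} [Field F] (S : Set (Ideal (𝓞 F)))
    (τ : Gal(AlgebraicClosure F/F)) (hτ : τ ∈ inertia S) : τ ^ 2 ∈ inertia S := by
  obtain ⟨P, hP, hPS, hPτ⟩ := hτ
  refine ⟨P, hP, hPS, fun x => ?_⟩
  have h1 : τ ^ 2 • x - x = (τ • (τ • x) - τ • x) + (τ • x - x) := by
    rw [pow_two, mul_smul, sub_add_sub_cancel]
  rw [h1]
  exact P.add_mem (hPτ _) (hPτ _)

theorem compact_fix (F : Type) [Field F] [NumberField F]
    (K : IntermediateField F (AlgebraicClosure F)) [FiniteDimensional F K] :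
    CompactSpace K.fixingSubgroup := by
  have h1 : IsOpen (K.fixingSubgroup : Set Gal(AlgebraicClosure F/F)) :=
    IntermediateField.fixingSubgroup_isOpen K
  exact isCompact_iff_compactSpace.1 (Subgroup.isClosed_of_isOpen _ h1).isCompact

open Pool.Agent.X148.FM in
/-- part (1) -/
theorem part_one (p : ℕ) [Fact p.Prime] (F : Type) [Field F] [NumberField F]
    (K : IntermediateField F (AlgebraicClosure F)) [FiniteDimensional F K] [Normal F K]
    (hdeg : ¬ p ∣ Module.finrank F K) (S : Set (Ideal (𝓞 F))) (e : ℕ) (he : 1 ≤ e)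
    (hE : AbelianExponent S K p e) (hX : NoPerfectQuotient S K p) : OnlyTrivial S K p e := by
  have hgal : IsGalois F K := ⟨⟩
  have hcard : Nat.card Gal(K/F) = Module.finrank F K := IsGalois.card_aut_eq_finrank F K
  have hD : ¬ p ∣ Nat.card Gal(K/F) := by rw [hcard]; exact hdeg
  have hcomp : CompactSpace K.fixingSubgroup := compact_fix F K
  have hker : ∀ σ, σ ∈ K.fixingSubgroup ↔ AlgEquiv.restrictNormalHom K σ = 1 := fun σ => by
    rw [← IntermediateField.restrictNormalHom_ker, MonoidHom.mem_ker]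
  have hNP : NoPerf p (AlgEquiv.restrictNormalHom K) K.fixingSubgroup (inertia S) :=
    fun W _ _ _ θ f h1 h2 h3 h4 b h5 h6 h7 => hX W θ f h1 h2 h3 h4 b ⟨h5, h6, h7⟩
  have hIc : ∀ σ, ∀ τ ∈ inertia S, σ * τ * σ⁻¹ ∈ inertia S := fun σ τ hτ => inertia_conj S σ τ hτ
  have hE' : ∀ (E : Type) [CommGroup E] [Finite E], IsPGroup p E →
      ∀ f : K.fixingSubgroup →* E, IsOpen (f.ker : Set K.fixingSubgroup) →
      (∀ τ : K.fixingSubgroup, (τ : Gal(AlgebraicClosure F/F)) ∈ inertia S → f τ = 1) →
      ∀ g, f g ^ (p ^ e) = 1 := fun E _ _ hE' f hf hfu g => hE E hE' f hf hfu g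
  intro U _ Fil r hr hFil ρ hρ hur
  have hF : PVal p r (e * r) Fil :=
    ⟨hFil.top, hFil.anti, hFil.comm, hFil.pow, hFil.hom, hFil.inj, hFil.sep⟩
  refine hF.triv he hr rfl hD (AlgEquiv.restrictNormalHom K)
    (AlgEquiv.restrictNormalHom_surjective _) K.fixingSubgroup hker (inertia S) hIc hE' hNP
    ρ hur (fun N => ?_)
  refine (hρ N).mem_nhds ?_
  show ρ 1 ∈ Fil N
  rw [map_one]
  exact Subgroup.one_mem _

/-- part (2) -/
theorem part_two (p : ℕ) [Fact p.Prime] (hp2 : p ≠ 2) (F : Type) [Field F] [NumberField F]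
    (K : IntermediateField F (AlgebraicClosure F)) (hK : Module.finrank F K = 2)
    (S : Set (Ideal (𝓞 F)))
    (hF : NoCyclic S p)
    (e : ℕ) (he1 : 1 ≤ e) (hE : AbelianExponent S K p e) : OnlyTrivial S K p e := by
  have hp : p.Prime := Fact.out
  have hfd : FiniteDimensional F K := Module.finite_of_finrank_pos (by rw [hK]; norm_num)
  have hquad : Algebra.IsQuadraticExtension F K := ⟨hK⟩
  have hgal : IsGalois F K := inferInstance
  have hcard : Nat.card Gal(K/F) = 2 := by rw [IsGalois.card_aut_eq_finrank F K, hK]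
  have hp3 : 2 < p := lt_of_le_of_ne hp.two_le (Ne.symm hp2)
  have hdeg : ¬ p ∣ Module.finrank F K := by
    rw [hK]
    exact fun h => absurd (Nat.le_of_dvd (by norm_num) h) (by omega)
  refine part_one p F K hdeg S e he1 hE ?_
  rintro W _ _ _ θ f h1 h2 h3 h4 b ⟨h5, h6, h7⟩
  exact Pool.Agent.X148.FM.noPerf_quad hp2 hcard (AlgEquiv.restrictNormalHom K)
    (AlgEquiv.restrictNormalHom_surjective _) K.fixingSubgroup
    (fun σ => by rw [← IntermediateField.restrictNormalHom_ker, MonoidHom.mem_ker])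
    (IntermediateField.fixingSubgroup_isOpen K) (inertia S) (fun τ hτ => inertia_sq S τ hτ) hF
    W θ f h1 h2 h3 h4 b h5 h6 h7

/-- the prime ideals of `ℚ` which contain a number in `S` -/
def above (S : Set ℕ) : Set (Ideal (𝓞 ℚ)) := {P | ∃ l ∈ S, (l : 𝓞 ℚ) ∈ P}

theorem mem_above (S : Set ℕ) (P : Ideal (𝓞 (AlgebraicClosure ℚ))) :
    P.comap (algebraMap (𝓞 ℚ) (𝓞 (AlgebraicClosure ℚ))) ∉ above S ↔
      ∀ l ∈ S, (l : 𝓞 (AlgebraicClosure ℚ)) ∉ P := by
  unfold above
  simp only [Set.mem_ofPred_eq, Ideal.mem_comap, map_natCast, not_exists, not_and]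

open Pool.Agent.W569.FM in
theorem rational_aux (p : ℕ) (hp : p.Prime) (S : Set ℕ)
    (hS : ∀ l ∈ S, l.Prime ∧ l ≠ p ∧ ¬ p ∣ l - 1) {E : Type} [CommGroup E] [Finite E]
    (hpg : IsPGroup p E) (f : GF ℚ →* E) (hf : IsOpen (f.ker : Set (GF ℚ)))
    (hu : ∀ P : Ideal (OO ℚ), P.IsMaximal → (∀ l ∈ S, (l : OO ℚ) ∉ P) → ∀ τ : GF ℚ,
      InInertia P τ → f τ = 1) : ∀ g, f g = 1 := by
  have hGEN : S_GEN := Pool.Agent.W215.FM.main
  have hTAME : S_TAME := Pool.Agent.W327.FM.main Pool.Agent.W258.FM.main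
  have hFROB : S_FROB := Pool.Agent.W571.FM.main
  refine hGEN _ f hf fun P hP τ hτ => ?_
  by_cases h : ∀ l ∈ S, (l : OO ℚ) ∉ P
  · exact hu P hP h τ hτ
  · push Not at h
    obtain ⟨l, hlS, hlP⟩ := h
    obtain ⟨hl, hlp, hpl⟩ := hS l hlS
    obtain ⟨⟨Q, hQ, hlQ, σ, hσ⟩, hconj⟩ := hFROB l hl
    obtain ⟨g, hg⟩ := hconj Q P hQ hP hlQ hlP
    have h1 : f τ = f (g⁻¹ * τ * g) := by
      rw [map_mul, map_mul, map_inv, mul_comm, mul_inv_cancel_left]
    rw [h1]
    have h2 := (hTAME p l hp hl hlp.symm _ hpg f hf Q hQ hlQ).1 _ (hg τ hτ) σ hσ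
    rw [map_mul, map_mul, map_inv, mul_comm (f σ), mul_inv_cancel_right] at h2
    exact eq_one_of_pow hp hl.one_le hpl (hpg _) h2

/-- the rational numbers have no cyclic extension of degree `p` which is tame and ramified only at
primes `l ≢ 1` modulo `p` -/
theorem rational (p : ℕ) [Fact p.Prime] (S : Set ℕ) (hS : ∀ l ∈ S, l.Prime ∧ l ≠ p ∧ ¬ p ∣ l - 1)
    (f : Gal(AlgebraicClosure ℚ/ℚ) →* Multiplicative (ZMod p))
    (hf : IsOpen (f.ker : Set Gal(AlgebraicClosure ℚ/ℚ)))
    (hu : ∀ τ ∈ inertia (above S), f τ = 1) : ∀ g, f g = 1 := by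
  have hpg : IsPGroup p (Multiplicative (ZMod p)) := by
    refine IsPGroup.of_card (n := 1) ?_
    rw [pow_one, Nat.card_congr Multiplicative.toAdd, Nat.card_zmod]
  exact rational_aux p Fact.out S hS hpg f hf fun P hP h τ hτ =>
    hu τ ⟨P, hP, (mem_above S P).2 h, hτ⟩

/-- **A module criterion for homomorphisms to `p`-valued groups.** -/
theorem result :
    -- (1) Galois extensions of degree prime to `p`
    (∀ (p : ℕ) [Fact p.Prime] (F : Type) [Field F] [NumberField F]
      (K : IntermediateField F (AlgebraicClosure F)) [FiniteDimensional F K] [Normal F K],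
      ¬ p ∣ Module.finrank F K → ∀ (S : Set (Ideal (𝓞 F))) (e : ℕ), 1 ≤ e →
      AbelianExponent S K p e → NoPerfectQuotient S K p → OnlyTrivial S K p e) ∧
    -- (2) quadratic extensions
    (∀ (p : ℕ) [Fact p.Prime], p ≠ 2 → ∀ (F : Type) [Field F] [NumberField F]
      (K : IntermediateField F (AlgebraicClosure F)), Module.finrank F K = 2 →
      ∀ S : Set (Ideal (𝓞 F)), NoCyclic S p →
      ∀ e : ℕ, 1 ≤ e → AbelianExponent S K p e → OnlyTrivial S K p e) ∧
    -- (3) quadratic fields
    (∀ (p : ℕ) [Fact p.Prime], p ≠ 2 → ∀ K : IntermediateField ℚ (AlgebraicClosure ℚ),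
      Module.finrank ℚ K = 2 → ∀ S : Set ℕ, (∀ l ∈ S, l.Prime ∧ l ≠ p ∧ ¬ p ∣ l - 1) →
      ∀ e : ℕ, 1 ≤ e → AbelianExponent (above S) K p e → OnlyTrivial (above S) K p e) := by
  refine ⟨fun p _ F _ _ K _ _ h1 S e h2 h3 h4 => part_one p F K h1 S e h2 h3 h4,
    fun p _ h1 F _ _ K h2 S h3 e h4 h5 => part_two p h1 F K h2 S h3 e h4 h5,
    fun p _ h1 K h2 S h3 e h4 h5 =>
      part_two p h1 ℚ K h2 (above S) (fun f hf hu => rational p S h3 f hf hu) e h4 h5⟩

end Pool.Agent.Results.MP_ca71b5_nt.UniformQuotients
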